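import Mathlib

set_option autoImplicit false

open Finset MeasureTheory

namespace Pool.Agent.Lib.MP_6bc78b_nt.LS

/-- e(x) = exp(2 pi i x). -/
noncomputable def ex (x : ℝ) : ℂ := Complex.exp (2 * Real.pi * Complex.I * x)

lemma norm_ex (x : ℝ) : ‖ex x‖ = 1 := by
  unfold ex
  have : (2 * Real.pi * Complex.I * x : ℂ) = ((2 * Real.pi * x : ℝ) : ℂ) * Complex.I := by
    push_cast; ring
  rw [this, Complex.norm_exp_ofReal_mul_I]

lemma ex_add (x y : ℝ) : ex (x + y) = ex x * ex y := by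
  unfold ex
  rw [← Complex.exp_add]; congr 1; push_cast; ring

lemma ex_zero : ex 0 = 1 := by simp [ex]

lemma ex_int (k : ℤ) : ex (k : ℝ) = 1 := by
  unfold ex
  have : (2 * Real.pi * Complex.I * ((k : ℝ) : ℂ) : ℂ) = (k : ℂ) * (2 * Real.pi * Complex.I) := by
    push_cast; ring
  rw [this]
  exact Complex.exp_int_mul_two_pi_mul_I k

lemma conj_ex (x : ℝ) : (starRingEnd ℂ) (ex x) = ex (-x) := by
  unfold ex
  rw [← Complex.exp_conj]
  congr 1
  have h1 : (2 * Real.pi * Complex.I * x : ℂ) = ((2 * Real.pi * x : ℝ) : ℂ) * Complex.I := by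
    push_cast; ring
  rw [h1, map_mul, Complex.conj_ofReal, Complex.conj_I]
  push_cast; ring

lemma continuous_ex : Continuous ex := by
  unfold ex; fun_prop

/-- The trigonometric polynomial with coefficients a. -/
noncomputable def tp (N : ℕ) (a : ℕ → ℂ) (x : ℝ) : ℂ := ∑ n ∈ range N, a n * ex (n * x)

lemma continuous_tp (N : ℕ) (a : ℕ → ℂ) : Continuous (tp N a) := by
  unfold tp ex
  fun_prop

lemma hasDerivAt_tp (N : ℕ) (a : ℕ → ℂ) (x : ℝ) :
    HasDerivAt (tp N a) (tp N (fun n => 2 * Real.pi * Complex.I * n * a n) x) x := by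
  unfold tp
  have h : ∀ n ∈ range N, HasDerivAt (fun x : ℝ => a n * ex (n * x))
      (2 * Real.pi * Complex.I * n * a n * ex (n * x)) x := by
    intro n _
    unfold ex
    have h1 : HasDerivAt (fun x : ℝ => (2 * Real.pi * Complex.I * ((n * x : ℝ) : ℂ) : ℂ))
        (2 * Real.pi * Complex.I * n) x := by
      have h2 : HasDerivAt (fun x : ℝ => ((x : ℝ) : ℂ)) 1 x := Complex.ofRealCLM.hasDerivAt
      have h3 := h2.const_mul (2 * Real.pi * Complex.I * n : ℂ)
      rw [mul_one] at h3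
      have h5 : (fun x : ℝ => (2 * Real.pi * Complex.I * ((n * x : ℝ) : ℂ) : ℂ)) =
          fun y : ℝ => 2 * Real.pi * Complex.I * n * (y : ℂ) := by
        funext y
        push_cast
        ring
      rw [h5]
      exact h3
    have h4 := (h1.cexp).const_mul (a n)
    refine HasDerivAt.congr_deriv h4 ?_
    ring
  exact HasDerivAt.fun_sum h

lemma integral_ex_int (c : ℝ) (k : ℤ) (hk : k ≠ 0) : ∫ x in c..(c + 1), ex (k * x) = 0 := by
  have hk' : (2 * Real.pi * Complex.I * k : ℂ) ≠ 0 := by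
    have h1 : (k : ℂ) ≠ 0 := by exact_mod_cast hk
    have h2 : (Real.pi : ℂ) ≠ 0 := by exact_mod_cast Real.pi_ne_zero
    simp [h1, h2, Complex.I_ne_zero]
  have h1 : ∀ x : ℝ, ex (k * x) = Complex.exp ((2 * Real.pi * Complex.I * k) * x) := by
    intro x; unfold ex; congr 1; push_cast; ring
  simp_rw [h1]
  rw [integral_exp_mul_complex hk']
  have h2 : Complex.exp (2 * Real.pi * Complex.I * k * ((c + 1 : ℝ) : ℂ)) =
      Complex.exp (2 * Real.pi * Complex.I * k * c) := by
    have : (2 * Real.pi * Complex.I * k * ((c + 1 : ℝ) : ℂ) : ℂ) =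
        2 * Real.pi * Complex.I * k * c + (k : ℂ) * (2 * Real.pi * Complex.I) := by
      push_cast; ring
    rw [this, Complex.exp_add, Complex.exp_int_mul_two_pi_mul_I, mul_one]
  rw [h2, sub_self, zero_div]

/-- Parseval on an interval of length one. -/
lemma parseval (N : ℕ) (a : ℕ → ℂ) (c : ℝ) :
    ∫ x in c..(c + 1), ‖tp N a x‖ ^ 2 = ∑ n ∈ range N, ‖a n‖ ^ 2 := by
  have h1 : ∀ x : ℝ, ((‖tp N a x‖ ^ 2 : ℝ) : ℂ) =
      ∑ m ∈ range N, ∑ n ∈ range N, a m * (starRingEnd ℂ) (a n) * ex (((m : ℤ) - (n : ℤ) : ℤ) * x) := by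
    intro x
    rw [← Complex.normSq_eq_norm_sq, ← Complex.mul_conj]
    unfold tp
    rw [map_sum, Finset.sum_mul_sum]
    refine Finset.sum_congr rfl (fun m _ => Finset.sum_congr rfl (fun n _ => ?_))
    rw [map_mul, mul_mul_mul_comm, conj_ex, ← ex_add]
    congr 2
    push_cast
    ring
  have h2 : ((∫ x in c..(c + 1), ‖tp N a x‖ ^ 2 : ℝ) : ℂ) = ∑ n ∈ range N, ((‖a n‖ ^ 2 : ℝ) : ℂ) := by
    rw [← intervalIntegral.integral_ofReal]
    simp_rw [h1]
    have hc : ∀ (z : ℂ) (k : ℤ), IntervalIntegrable (fun x : ℝ => z * ex (k * x)) volume c (c + 1) := by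
      intro z k
      apply Continuous.intervalIntegrable
      unfold ex
      fun_prop
    rw [intervalIntegral.integral_finsetSum]
    · refine Finset.sum_congr rfl (fun m hm => ?_)
      rw [intervalIntegral.integral_finsetSum]
      · rw [Finset.sum_eq_single m]
        · rw [sub_self]
          have : ∀ x : ℝ, a m * (starRingEnd ℂ) (a m) * ex (((0 : ℤ) : ℝ) * x) =
              ((‖a m‖ ^ 2 : ℝ) : ℂ) := by
            intro x
            rw [Int.cast_zero, zero_mul, ex_zero, mul_one, Complex.mul_conj,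
              Complex.normSq_eq_norm_sq]
          simp_rw [this]
          rw [intervalIntegral.integral_const]
          simp
        · intro n _ hn
          rw [intervalIntegral.integral_const_mul, integral_ex_int, mul_zero]
          intro h
          apply hn
          omega
        · intro h; exact absurd hm h
      · intro n _
        exact hc _ _
    · intro m _
      apply Continuous.intervalIntegrable
      unfold ex
      fun_prop
  rw [← Complex.ofReal_sum] at h2
  exact_mod_cast h2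

/-- Gallagher's lemma. -/
lemma gallagher (f f' : ℝ → ℂ) (hf : ∀ x, HasDerivAt f (f' x) x) (hc : Continuous f')
    (x δ : ℝ) (hδ : 0 < δ) :
    ‖f x‖ ^ 2 ≤ (1 / δ) * (∫ t in (x - δ / 2)..(x + δ / 2), ‖f t‖ ^ 2) +
      ∫ t in (x - δ / 2)..(x + δ / 2), 2 * (‖f t‖ * ‖f' t‖) := by
  have hfc : Continuous f := continuous_iff_continuousAt.2 (fun x => (hf x).continuousAt)
  set g : ℝ → ℝ := fun t => ‖f t‖ ^ 2 with hg
  set h : ℝ → ℝ := fun t => 2 * (‖f t‖ * ‖f' t‖) with hh
  have hgc : Continuous g := by fun_prop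
  have hhc : Continuous h := by fun_prop
  have hh0 : ∀ t, 0 ≤ h t := fun t => by positivity
  set g' : ℝ → ℝ := fun t => 2 * inner ℝ (f t) (f' t) with hg'
  have hg'c : Continuous g' := by fun_prop
  have hderiv : ∀ t, HasDerivAt g (g' t) t := fun t => (hf t).norm_sq
  have hg'h : ∀ t, |g' t| ≤ h t := by
    intro t
    simp only [hg', hh]
    rw [abs_mul, abs_of_pos (by norm_num : (0:ℝ) < 2)]
    gcongr
    exact abs_real_inner_le_norm _ _
  set A := x - δ / 2 with hA
  set B := x + δ / 2 with hB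
  have hAB : A ≤ B := by rw [hA, hB]; linarith
  set H := ∫ t in A..B, h t with hH
  have key : ∀ t ∈ Set.Icc A B, g x ≤ g t + H := by
    intro t ht
    have h1 : ∫ u in t..x, g' u = g x - g t :=
      intervalIntegral.integral_eq_sub_of_hasDerivAt (fun u _ => hderiv u)
        (hg'c.intervalIntegrable _ _)
    have h2 : ∫ u in t..x, g' u ≤ H := by
      have hx : x ∈ Set.Icc A B := ⟨by rw [hA]; linarith, by rw [hB]; linarith⟩
      have h3 : |∫ u in t..x, g' u| ≤ |∫ u in t..x, h u| := by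
        have h4 : ∀ᵐ u ∂(volume.restrict (Set.uIoc t x)), ‖g' u‖ ≤ h u :=
          Filter.Eventually.of_forall (fun u => by rw [Real.norm_eq_abs]; exact hg'h u)
        have := intervalIntegral.norm_integral_le_abs_of_norm_le h4 (hhc.intervalIntegrable _ _)
        simpa [Real.norm_eq_abs] using this
      have h5 : |∫ u in t..x, h u| ≤ H := by
        rcases le_total t x with htx | htx
        · rw [abs_of_nonneg (intervalIntegral.integral_nonneg htx (fun u _ => hh0 u))]
          exact intervalIntegral.integral_mono_interval ht.1 htx hx.2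
            (Filter.Eventually.of_forall hh0) (hhc.intervalIntegrable _ _)
        · rw [intervalIntegral.integral_symm, abs_neg,
            abs_of_nonneg (intervalIntegral.integral_nonneg htx (fun u _ => hh0 u))]
          exact intervalIntegral.integral_mono_interval hx.1 htx ht.2
            (Filter.Eventually.of_forall hh0) (hhc.intervalIntegrable _ _)
      exact le_trans (le_abs_self _) (le_trans h3 h5)
    linarith
  have h1 : ∫ t in A..B, g x ≤ ∫ t in A..B, (g t + H) := by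
    apply intervalIntegral.integral_mono_on hAB
    · exact intervalIntegrable_const
    · exact (hgc.intervalIntegrable _ _).add intervalIntegrable_const
    · exact key
  rw [intervalIntegral.integral_const, intervalIntegral.integral_add (hgc.intervalIntegrable _ _)
    intervalIntegrable_const, intervalIntegral.integral_const] at h1
  have h2 : B - A = δ := by rw [hA, hB]; ring
  rw [h2, smul_eq_mul, smul_eq_mul] at h1
  have h3 : g x ≤ (1 / δ) * (∫ t in A..B, g t) + H := by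
    have h4 : (1 / δ) * (δ * g x) ≤ (1 / δ) * ((∫ t in A..B, g t) + δ * H) := by
      gcongr
    have h5 : (1 / δ) * (δ * g x) = g x := by field_simp
    have h6 : (1 / δ) * ((∫ t in A..B, g t) + δ * H) = (1 / δ) * (∫ t in A..B, g t) + H := by
      field_simp
    rw [h5, h6] at h4
    exact h4
  exact h3

/-- Sum of integrals over well spaced short intervals. -/
lemma sum_integral_le {ι : Type*} (R : Finset ι) (x : ι → ℝ) (δ c : ℝ) (hδ : 0 < δ)
    (hx : ∀ r ∈ R, c + δ / 2 ≤ x r ∧ x r + δ / 2 ≤ c + 1)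
    (hsp : ∀ r ∈ R, ∀ s ∈ R, r ≠ s → δ ≤ |x r - x s|)
    (h : ℝ → ℝ) (hc : Continuous h) (h0 : ∀ t, 0 ≤ h t) :
    ∑ r ∈ R, ∫ t in (x r - δ / 2)..(x r + δ / 2), h t ≤ ∫ t in c..(c + 1), h t := by
  have h1 : ∀ r ∈ R, ∫ t in (x r - δ / 2)..(x r + δ / 2), h t =
      ∫ t in Set.Ioc (x r - δ / 2) (x r + δ / 2), h t := by
    intro r _
    rw [intervalIntegral.integral_of_le (by linarith)]
  rw [Finset.sum_congr rfl h1, intervalIntegral.integral_of_le (by linarith)]
  have hdisj : Set.PairwiseDisjoint (↑R) (fun r => Set.Ioc (x r - δ / 2) (x r + δ / 2)) := by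
    intro r hr s hs hrs
    have h2 := hsp r hr s hs hrs
    simp only [Function.onFun]
    rw [Set.disjoint_left]
    intro t ht ht'
    rw [Set.mem_Ioc] at ht ht'
    rcases abs_cases (x r - x s) with ⟨h3, _⟩ | ⟨h3, _⟩
    · rw [h3] at h2; linarith [ht.1, ht.2, ht'.1, ht'.2]
    · rw [h3] at h2; linarith [ht.1, ht.2, ht'.1, ht'.2]
  have hint : ∀ a b : ℝ, IntegrableOn h (Set.Ioc a b) := fun a b =>
    (hc.integrableOn_Icc).mono_set Set.Ioc_subset_Icc_self
  rw [← integral_biUnion_finset R (fun r _ => measurableSet_Ioc) hdisj (fun r _ => hint _ _)]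
  apply setIntegral_mono_set (hint _ _) (Filter.Eventually.of_forall h0)
  apply LE.le.eventuallyLE
  intro t ht
  simp only [Set.mem_iUnion, exists_prop] at ht
  obtain ⟨r, hr, ht⟩ := ht
  obtain ⟨h3, h4⟩ := hx r hr
  rw [Set.mem_Ioc] at ht ⊢
  constructor <;> linarith [ht.1, ht.2]

/-- The additive large sieve inequality (Gallagher's proof). -/
theorem add_large_sieve {ι : Type*} (R : Finset ι) (x : ι → ℝ) (δ c : ℝ) (hδ : 0 < δ)
    (hx : ∀ r ∈ R, c + δ / 2 ≤ x r ∧ x r + δ / 2 ≤ c + 1)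
    (hsp : ∀ r ∈ R, ∀ s ∈ R, r ≠ s → δ ≤ |x r - x s|) (N : ℕ) (a : ℕ → ℂ) :
    ∑ r ∈ R, ‖tp N a (x r)‖ ^ 2 ≤ (1 / δ + 4 * Real.pi * N) * ∑ n ∈ range N, ‖a n‖ ^ 2 := by
  set f := tp N a with hf
  set b : ℕ → ℂ := fun n => 2 * Real.pi * Complex.I * n * a n with hb
  set f' := tp N b with hf'
  rcases Nat.eq_zero_or_pos N with hN | hN
  · subst hN
    simp [hf, tp]
  have hfc : Continuous f := continuous_tp N a
  have hfc' : Continuous f' := continuous_tp N b
  have h1 : ∀ r ∈ R, ‖f (x r)‖ ^ 2 ≤ (1 / δ) * (∫ t in (x r - δ / 2)..(x r + δ / 2), ‖f t‖ ^ 2) +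
      ∫ t in (x r - δ / 2)..(x r + δ / 2), 2 * (‖f t‖ * ‖f' t‖) :=
    fun r _ => gallagher f f' (hasDerivAt_tp N a) hfc' (x r) δ hδ
  have h2 := Finset.sum_le_sum h1
  rw [Finset.sum_add_distrib, ← Finset.mul_sum] at h2
  have h3 := sum_integral_le R x δ c hδ hx hsp (fun t => ‖f t‖ ^ 2) (by fun_prop)
    (fun t => by positivity)
  have h4 := sum_integral_le R x δ c hδ hx hsp (fun t => 2 * (‖f t‖ * ‖f' t‖)) (by fun_prop)
    (fun t => by positivity)
  set κ : ℝ := 2 * Real.pi * N with hκ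
  have hκ0 : 0 < κ := by
    have : (0:ℝ) < N := by exact_mod_cast hN
    rw [hκ]; positivity
  have h5 : ∫ t in c..(c + 1), 2 * (‖f t‖ * ‖f' t‖) ≤
      ∫ t in c..(c + 1), (κ * ‖f t‖ ^ 2 + κ⁻¹ * ‖f' t‖ ^ 2) := by
    apply intervalIntegral.integral_mono_on (by linarith)
    · apply Continuous.intervalIntegrable; fun_prop
    · apply Continuous.intervalIntegrable; fun_prop
    · intro t _
      have h6 : 0 ≤ κ⁻¹ * (κ * ‖f t‖ - ‖f' t‖) ^ 2 := by positivity
      have h7 : κ⁻¹ * (κ * ‖f t‖ - ‖f' t‖) ^ 2 =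
          κ * ‖f t‖ ^ 2 - 2 * (‖f t‖ * ‖f' t‖) + κ⁻¹ * ‖f' t‖ ^ 2 := by
        field_simp
        ring
      linarith
  have h6 : ∫ t in c..(c + 1), (κ * ‖f t‖ ^ 2 + κ⁻¹ * ‖f' t‖ ^ 2) =
      κ * (∑ n ∈ range N, ‖a n‖ ^ 2) + κ⁻¹ * ∑ n ∈ range N, ‖b n‖ ^ 2 := by
    rw [intervalIntegral.integral_add]
    · rw [intervalIntegral.integral_const_mul, intervalIntegral.integral_const_mul, parseval,
        parseval]
    · apply Continuous.intervalIntegrable; fun_prop
    · apply Continuous.intervalIntegrable; fun_prop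
  have h7 : ∑ n ∈ range N, ‖b n‖ ^ 2 ≤ κ ^ 2 * ∑ n ∈ range N, ‖a n‖ ^ 2 := by
    rw [Finset.mul_sum]
    refine Finset.sum_le_sum (fun n hn => ?_)
    have hn' : (n : ℝ) ≤ N := by exact_mod_cast (Finset.mem_range.1 hn).le
    have : ‖b n‖ = 2 * Real.pi * n * ‖a n‖ := by
      simp only [hb]
      rw [norm_mul, norm_mul, norm_mul, norm_mul, Complex.norm_I, Complex.norm_real,
        Complex.norm_natCast, Real.norm_of_nonneg Real.pi_pos.le]
      simp
    rw [this, mul_pow]
    gcongr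
    rw [hκ]
    gcongr
  rw [parseval] at h3
  have h8 : κ⁻¹ * ∑ n ∈ range N, ‖b n‖ ^ 2 ≤ κ * ∑ n ∈ range N, ‖a n‖ ^ 2 := by
    calc κ⁻¹ * ∑ n ∈ range N, ‖b n‖ ^ 2 ≤ κ⁻¹ * (κ ^ 2 * ∑ n ∈ range N, ‖a n‖ ^ 2) := by gcongr
      _ = κ * ∑ n ∈ range N, ‖a n‖ ^ 2 := by field_simp
  have h9 : (1 / δ) * ∑ r ∈ R, (∫ t in (x r - δ / 2)..(x r + δ / 2), ‖f t‖ ^ 2) ≤
      (1 / δ) * ∑ n ∈ range N, ‖a n‖ ^ 2 := by
    gcongr
  have h10 : 4 * Real.pi * N = 2 * κ := by rw [hκ]; ring
  rw [h10]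
  nlinarith [h2, h4, h5, h6, h8, h9]

end Pool.Agent.Lib.MP_6bc78b_nt.LS
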