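import Mathlib
import Pool.Agent.Lib.MP_6bc78b_nt.LS.Additive

set_option autoImplicit false

open Finset MeasureTheory DirichletCharacter ZMod

namespace Pool.Agent.Lib.MP_6bc78b_nt.LS

lemma star_char {q : ℕ} (χ : DirichletCharacter ℂ q) (b : ZMod q) :
    (starRingEnd ℂ) (χ b) = χ⁻¹ b := by
  have h := MulChar.star_apply χ b
  rw [MulChar.star_eq_inv] at h
  rw [h]; rfl

/-- Parseval for Dirichlet characters. -/
lemma char_parseval (q : ℕ) [NeZero q] (V : ZMod q → ℂ) :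
    ∑ χ : DirichletCharacter ℂ q, ‖∑ b : ZMod q, χ b * V b‖ ^ 2 =
      (q.totient : ℝ) * ∑ b : ZMod q, if IsUnit b then ‖V b‖ ^ 2 else 0 := by
  classical
  have h1 : ∀ χ : DirichletCharacter ℂ q, ((‖∑ b : ZMod q, χ b * V b‖ ^ 2 : ℝ) : ℂ) =
      ∑ b : ZMod q, ∑ b' : ZMod q, (χ b * χ⁻¹ b') * (V b * (starRingEnd ℂ) (V b')) := by
    intro χ
    rw [← Complex.normSq_eq_norm_sq, ← Complex.mul_conj, map_sum, Finset.sum_mul_sum]
    refine Finset.sum_congr rfl (fun b _ => Finset.sum_congr rfl (fun b' _ => ?_))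
    rw [map_mul, star_char]
    ring
  have h2 : ∀ b b' : ZMod q, ∑ χ : DirichletCharacter ℂ q, χ b * χ⁻¹ b' =
      if b' = b ∧ IsUnit b then (q.totient : ℂ) else 0 := by
    intro b b'
    by_cases hb' : IsUnit b'
    · have h3 : ∀ χ : DirichletCharacter ℂ q, χ b * χ⁻¹ b' = χ b'⁻¹ * χ b := by
        intro χ
        rw [mul_comm]
        congr 1
        rw [MulChar.inv_apply_eq_inv']
        have h4 : χ b' * χ b'⁻¹ = 1 := by
          rw [← map_mul, ZMod.mul_inv_of_unit b' hb', map_one]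
        have h5 : χ b' ≠ 0 := by
          intro h; rw [h, zero_mul] at h4; exact zero_ne_one h4
        exact inv_eq_of_mul_eq_one_right h4
      rw [Finset.sum_congr rfl (fun χ _ => h3 χ), sum_char_inv_mul_char_eq ℂ hb' b]
      by_cases hbb : b' = b
      · subst hbb; simp [hb']
      · simp [hbb]
    · have h3 : ∀ χ : DirichletCharacter ℂ q, χ b * χ⁻¹ b' = 0 := by
        intro χ
        rw [MulChar.map_nonunit _ hb', mul_zero]
      rw [Finset.sum_congr rfl (fun χ _ => h3 χ), Finset.sum_const_zero, if_neg]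
      rintro ⟨h, h'⟩
      exact hb' (h ▸ h')
  have h3 : ((∑ χ : DirichletCharacter ℂ q, ‖∑ b : ZMod q, χ b * V b‖ ^ 2 : ℝ) : ℂ) =
      (((q.totient : ℝ) * ∑ b : ZMod q, (if IsUnit b then ‖V b‖ ^ 2 else 0) : ℝ) : ℂ) := by
    rw [Complex.ofReal_sum]
    simp_rw [h1]
    rw [Finset.sum_comm, Complex.ofReal_mul, Complex.ofReal_sum, Finset.mul_sum]
    refine Finset.sum_congr rfl (fun b _ => ?_)
    rw [Finset.sum_comm]
    simp_rw [← Finset.sum_mul, h2]
    rw [Finset.sum_eq_single b]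
    · by_cases hb : IsUnit b
      · simp only [hb, and_self, if_true]
        rw [Complex.mul_conj, Complex.normSq_eq_norm_sq]
        push_cast
        ring
      · simp [hb]
    · intro b' _ hb'
      rw [if_neg (fun h => hb' h.1), zero_mul]
    · intro h; exact absurd (Finset.mem_univ _) h
  exact_mod_cast h3

lemma inv_isPrimitive {q : ℕ} {χ : DirichletCharacter ℂ q} (h : χ.IsPrimitive) :
    (χ⁻¹).IsPrimitive := by
  rw [isPrimitive_def, conductor_inv]; exact h

lemma norm_gaussSum_sq {q : ℕ} [NeZero q] {χ : DirichletCharacter ℂ q} (h : χ.IsPrimitive) :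
    ‖gaussSum χ stdAddChar‖ ^ 2 = q := by
  have h1 : 𝓕 (𝓕 (χ : ZMod q → ℂ)) (-1) = (q : ℂ) := by
    rw [dft_dft]
    simp
  have h2 : 𝓕 (χ : ZMod q → ℂ) = fun k => gaussSum χ stdAddChar * (fun j => χ⁻¹ j) (-k) := by
    funext k
    rw [IsPrimitive.fourierTransform_eq_inv_mul_gaussSum h, mul_comm]
  have h3 : 𝓕 (𝓕 (χ : ZMod q → ℂ)) (-1) =
      gaussSum χ stdAddChar * (χ (-1) * gaussSum χ⁻¹ stdAddChar) := by
    rw [h2]
    have h4 : 𝓕 (fun k : ZMod q => gaussSum χ stdAddChar * (fun j => χ⁻¹ j) (-k)) =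
        fun k => gaussSum χ stdAddChar * 𝓕 (fun k : ZMod q => (fun j => χ⁻¹ j) (-k)) k := by
      funext k
      simp only [dft_apply, smul_eq_mul, Finset.mul_sum]
      refine Finset.sum_congr rfl (fun j _ => ?_)
      ring
    rw [h4]
    simp only
    congr 1
    have h5 := congrFun (dft_comp_neg (fun j => χ⁻¹ j)) (-1)
    rw [h5, neg_neg]
    have h6 := IsPrimitive.fourierTransform_eq_inv_mul_gaussSum (inv_isPrimitive h) 1
    rw [inv_inv] at h6
    exact h6
  have h4 : (starRingEnd ℂ) (gaussSum χ stdAddChar) = χ (-1) * gaussSum χ⁻¹ stdAddChar := by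
    have h5 := star_gaussSum_eq χ (stdAddChar (N := q))
    rw [AddChar.inv_mulShift] at h5
    rw [gaussSum_mulShift_of_isPrimitive _ (inv_isPrimitive h), inv_inv] at h5
    exact h5
  have h5 : ((‖gaussSum χ stdAddChar‖ ^ 2 : ℝ) : ℂ) = (q : ℂ) := by
    rw [← Complex.normSq_eq_norm_sq, ← Complex.mul_conj, h4, ← h3, h1]
  exact_mod_cast h5

/-- The sum over primitive characters modulo q. -/
lemma prim_sum_le (q : ℕ) [NeZero q] (M N : ℕ) (a : ℕ → ℂ) [DecidablePred fun χ : DirichletCharacter ℂ q => χ.IsPrimitive] :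
    (q : ℝ) * ∑ χ : DirichletCharacter ℂ q with χ.IsPrimitive, ‖∑ n ∈ range N, a n * χ (n + M : ℕ)‖ ^ 2 ≤
      (q.totient : ℝ) * ∑ b ∈ range q with b.Coprime q, ‖tp N a ((b : ℝ) / q)‖ ^ 2 := by
  classical
  set U : ZMod q → ℂ := fun b => ∑ n ∈ range N, a n * stdAddChar (b * ((n + M : ℕ) : ZMod q)) with hU
  have h1 : ∀ χ : DirichletCharacter ℂ q, χ.IsPrimitive →
      (q : ℝ) * ‖∑ n ∈ range N, a n * χ (n + M : ℕ)‖ ^ 2 = ‖∑ b : ZMod q, χ⁻¹ b * U b‖ ^ 2 := by
    intro χ hχ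
    rw [← norm_gaussSum_sq (inv_isPrimitive hχ), ← mul_pow, ← norm_mul]
    congr 2
    rw [Finset.mul_sum]
    simp only [hU, Finset.mul_sum]
    rw [Finset.sum_comm]
    refine Finset.sum_congr rfl (fun n _ => ?_)
    have h2 := gaussSum_mulShift_of_isPrimitive stdAddChar (inv_isPrimitive hχ) ((n + M : ℕ) : ZMod q)
    rw [inv_inv] at h2
    rw [mul_left_comm, mul_comm (gaussSum _ _), ← h2]
    unfold gaussSum
    rw [Finset.mul_sum]
    refine Finset.sum_congr rfl (fun b _ => ?_)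
    rw [AddChar.mulShift_apply, mul_comm b]
    ring
  have h2 : (q : ℝ) * ∑ χ : DirichletCharacter ℂ q with χ.IsPrimitive,
      ‖∑ n ∈ range N, a n * χ (n + M : ℕ)‖ ^ 2 ≤
      ∑ χ : DirichletCharacter ℂ q, ‖∑ b : ZMod q, χ b * U b‖ ^ 2 := by
    rw [Finset.mul_sum]
    calc ∑ χ : DirichletCharacter ℂ q with χ.IsPrimitive, (q : ℝ) *
          ‖∑ n ∈ range N, a n * χ (n + M : ℕ)‖ ^ 2 =
          ∑ χ : DirichletCharacter ℂ q with χ.IsPrimitive, ‖∑ b : ZMod q, χ⁻¹ b * U b‖ ^ 2 := by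
          refine Finset.sum_congr rfl (fun χ hχ => h1 χ (Finset.mem_filter.1 hχ).2)
      _ ≤ ∑ χ : DirichletCharacter ℂ q, ‖∑ b : ZMod q, χ⁻¹ b * U b‖ ^ 2 :=
          Finset.sum_le_sum_of_subset_of_nonneg (Finset.filter_subset _ _)
            (fun _ _ _ => by positivity)
      _ = ∑ χ : DirichletCharacter ℂ q, ‖∑ b : ZMod q, χ b * U b‖ ^ 2 :=
          Equiv.sum_comp (Equiv.inv (DirichletCharacter ℂ q))
            (fun χ => ‖∑ b : ZMod q, χ b * U b‖ ^ 2)
  refine le_trans h2 ?_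
  rw [char_parseval]
  refine mul_le_mul_of_nonneg_left (le_of_eq ?_) (by positivity)
  rw [← Finset.sum_filter]
  have hq : 0 < q := Nat.pos_of_ne_zero (NeZero.ne q)
  refine Finset.sum_bij (fun b _ => b.val) ?_ ?_ ?_ ?_
  · intro b hb
    rw [Finset.mem_filter] at hb
    rw [Finset.mem_filter, Finset.mem_range]
    refine ⟨ZMod.val_lt b, ?_⟩
    have := hb.2
    rw [← ZMod.natCast_zmod_val b, ZMod.isUnit_iff_coprime] at this
    exact this
  · intro b _ b' _ h
    exact ZMod.val_injective q h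
  · intro b hb
    rw [Finset.mem_filter, Finset.mem_range] at hb
    refine ⟨(b : ZMod q), ?_, ZMod.val_cast_of_lt hb.1⟩
    rw [Finset.mem_filter]
    exact ⟨Finset.mem_univ _, (ZMod.isUnit_iff_coprime b q).2 hb.2⟩
  · intro b _
    congr 1
    have h3 : U b = ex ((M : ℝ) * ((b.val : ℝ) / q)) * tp N a ((b.val : ℝ) / q) := by
      simp only [hU]
      unfold tp
      rw [Finset.mul_sum]
      refine Finset.sum_congr rfl (fun n _ => ?_)
      have h4 : b * ((n + M : ℕ) : ZMod q) = (((b.val : ℤ) * ((n + M : ℕ) : ℤ) : ℤ) : ZMod q) := by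
        push_cast
        rw [ZMod.natCast_zmod_val]
      rw [h4, stdAddChar_coe]
      unfold ex
      rw [mul_left_comm, ← Complex.exp_add]
      congr 2
      push_cast
      ring
    rw [h3, norm_mul, norm_ex, one_mul]

/-- The multiplicative large sieve inequality. -/
theorem mult_large_sieve (Q M N : ℕ) (a : ℕ → ℂ) :
    ∑ q ∈ Icc 1 Q, (q : ℝ) / q.totient * (∑ χ : DirichletCharacter ℂ q,
      open Classical in if χ.IsPrimitive then ‖∑ n ∈ range N, a n * χ (n + M : ℕ)‖ ^ 2 else 0) ≤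
      ((Q : ℝ) ^ 2 + 4 * Real.pi * N) * ∑ n ∈ range N, ‖a n‖ ^ 2 := by
  classical
  rcases Nat.eq_zero_or_pos Q with hQ | hQ
  · subst hQ
    simp only [show Icc 1 0 = (∅ : Finset ℕ) from rfl, Finset.sum_empty]
    positivity
  have hQ' : (0 : ℝ) < Q := by exact_mod_cast hQ
  set R : Finset (Σ _ : ℕ, ℕ) := (Icc 1 Q).sigma (fun q => (range q).filter (fun b => b.Coprime q))
    with hR
  have key := add_large_sieve R (fun p => (p.2 : ℝ) / p.1) (1 / (Q : ℝ) ^ 2) (-(1 / (Q : ℝ) ^ 2) / 2)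
    (by positivity) ?_ ?_ N a
  · rw [one_div_one_div] at key
    refine le_trans ?_ key
    rw [hR, Finset.sum_sigma]
    refine Finset.sum_le_sum (fun q hq => ?_)
    have hq1 : 1 ≤ q := (Finset.mem_Icc.1 hq).1
    have : NeZero q := ⟨by omega⟩
    have h1 := prim_sum_le q M N a
    rw [Finset.sum_filter] at h1
    have hφ : (0 : ℝ) < q.totient := by exact_mod_cast Nat.totient_pos.2 hq1
    rw [div_mul_eq_mul_div, div_le_iff₀ hφ]
    rw [mul_comm (∑ b ∈ _, _)]
    exact h1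
  · rintro ⟨q, b⟩ hp
    rw [hR, Finset.mem_sigma, Finset.mem_Icc, Finset.mem_filter, Finset.mem_range] at hp
    obtain ⟨⟨hq1, hqQ⟩, hbq, hcop⟩ := hp
    simp only at hq1 hqQ hbq hcop ⊢
    have hq' : (1 : ℝ) ≤ q := by exact_mod_cast hq1
    have hqQ' : (q : ℝ) ≤ Q := by exact_mod_cast hqQ
    constructor
    · have : (0 : ℝ) ≤ (b : ℝ) / q := by positivity
      linarith
    · have h1 : (b : ℝ) + 1 ≤ q := by exact_mod_cast hbq
      have h2 : (b : ℝ) / q ≤ 1 - 1 / q := by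
        rw [div_le_iff₀ (by linarith)]
        have : (1 - 1 / (q : ℝ)) * q = q - 1 := by field_simp
        rw [this]; linarith
      have h3 : 1 / (Q : ℝ) ^ 2 ≤ 1 / q := by
        apply one_div_le_one_div_of_le (by linarith)
        nlinarith
      linarith
  · rintro ⟨q, b⟩ hp ⟨q', b'⟩ hp' hne
    rw [hR, Finset.mem_sigma, Finset.mem_Icc, Finset.mem_filter, Finset.mem_range] at hp hp'
    obtain ⟨⟨hq1, hqQ⟩, hbq, hcop⟩ := hp
    obtain ⟨⟨hq1', hqQ'⟩, hbq', hcop'⟩ := hp'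
    simp only at hq1 hqQ hbq hcop hq1' hqQ' hbq' hcop' ⊢
    have hqr : (0 : ℝ) < q := by exact_mod_cast hq1
    have hqr' : (0 : ℝ) < q' := by exact_mod_cast hq1'
    have h1 : (b : ℝ) / q - (b' : ℝ) / q' = ((b * q' - b' * q : ℤ) : ℝ) / (q * q') := by
      push_cast
      field_simp
    have h2 : (b * q' - b' * q : ℤ) ≠ 0 := by
      intro h
      have h3 : b * q' = b' * q := by
        have : (b : ℤ) * q' = b' * q := by linarith
        exact_mod_cast this
      have h4 : q ∣ q' := by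
        have : q ∣ b * q' := by rw [h3]; exact Dvd.intro_left _ rfl
        exact (Nat.Coprime.dvd_of_dvd_mul_left hcop.symm this)
      have h5 : q' ∣ q := by
        have : q' ∣ b' * q := by rw [← h3]; exact Dvd.intro_left _ rfl
        exact (Nat.Coprime.dvd_of_dvd_mul_left hcop'.symm this)
      have h6 : q = q' := Nat.dvd_antisymm h4 h5
      subst h6
      have h7 : b = b' := Nat.eq_of_mul_eq_mul_right (by omega) h3
      subst h7
      exact hne rfl
    rw [h1, abs_div, abs_of_pos (by positivity : (0:ℝ) < (q:ℝ) * q')]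
    have h3 : (1 : ℝ) ≤ |((b * q' - b' * q : ℤ) : ℝ)| := by
      rw [← Int.cast_abs]
      exact_mod_cast Int.one_le_abs h2
    rw [div_le_div_iff₀ (by positivity) (by positivity)]
    have h4 : (q : ℝ) * q' ≤ (Q : ℝ) ^ 2 := by
      rw [sq]
      have h5 : (q : ℝ) ≤ Q := by exact_mod_cast hqQ
      have h6 : (q' : ℝ) ≤ Q := by exact_mod_cast hqQ'
      gcongr
    nlinarith [h3, h4, sq_nonneg (Q : ℝ)]

end Pool.Agent.Lib.MP_6bc78b_nt.LS
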