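import Mathlib
import Pool.Agent.Lib.MP_6bc78b_nt.LS.Mult

set_option autoImplicit false

open Finset MeasureTheory DirichletCharacter ZMod

namespace Pool.Agent.Lib.MP_6bc78b_nt.LS

/-- Sum over primitive characters. -/
noncomputable def primSum (q : ℕ) (F : DirichletCharacter ℂ q → ℝ) : ℝ :=
  ∑ χ : DirichletCharacter ℂ q, open Classical in if χ.IsPrimitive then F χ else 0

lemma primSum_nonneg (q : ℕ) (F : DirichletCharacter ℂ q → ℝ) (hF : ∀ χ, 0 ≤ F χ) :
    0 ≤ primSum q F := by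
  unfold primSum
  refine Finset.sum_nonneg (fun χ _ => ?_)
  split_ifs
  · exact hF χ
  · exact le_rfl

lemma primSum_mono (q : ℕ) (F G : DirichletCharacter ℂ q → ℝ)
    (h : ∀ χ : DirichletCharacter ℂ q, χ.IsPrimitive → F χ ≤ G χ) :
    primSum q F ≤ primSum q G := by
  unfold primSum
  refine Finset.sum_le_sum (fun χ _ => ?_)
  split_ifs with h1
  · exact h χ h1
  · exact le_rfl

lemma primSum_add (q : ℕ) (F G : DirichletCharacter ℂ q → ℝ) :
    primSum q (fun χ => F χ + G χ) = primSum q F + primSum q G := by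
  classical
  unfold primSum
  rw [← Finset.sum_add_distrib]
  refine Finset.sum_congr rfl (fun χ _ => ?_)
  split_ifs <;> simp

lemma primSum_const_mul (q : ℕ) (c : ℝ) (F : DirichletCharacter ℂ q → ℝ) :
    primSum q (fun χ => c * F χ) = c * primSum q F := by
  classical
  unfold primSum
  rw [Finset.mul_sum]
  refine Finset.sum_congr rfl (fun χ _ => ?_)
  split_ifs <;> simp

/-- The large sieve in terms of primSum, coefficients on [0,N). -/
theorem large_sieve_primSum (Q N : ℕ) (a : ℕ → ℂ) :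
    ∑ q ∈ Icc 1 Q, (q : ℝ) / q.totient *
      primSum q (fun χ => ‖∑ n ∈ range N, a n * χ (n : ZMod q)‖ ^ 2) ≤
      ((Q : ℝ) ^ 2 + 4 * Real.pi * N) * ∑ n ∈ range N, ‖a n‖ ^ 2 := by
  have h := mult_large_sieve Q 0 N a
  simpa [primSum] using h

/-- Cauchy-Schwarz for weighted double sums. -/
lemma primSum_cauchy (q : ℕ) (F G : DirichletCharacter ℂ q → ℝ) :
    (primSum q (fun χ => F χ * G χ)) ^ 2 ≤ primSum q (fun χ => F χ ^ 2) * primSum q (fun χ => G χ ^ 2) := by
  classical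
  have h := Finset.sum_mul_sq_le_sq_mul_sq (Finset.univ.filter
    (fun χ : DirichletCharacter ℂ q => χ.IsPrimitive)) F G
  simp only [Finset.sum_filter] at h
  unfold primSum
  exact h

/-- Bilinear large sieve, dyadic moduli. -/
theorem bilinear (Q K L : ℕ) (hQ : 1 ≤ Q) (u v : ℕ → ℂ) :
    ∑ q ∈ Ioc Q (2 * Q), 1 / (Real.sqrt q * q.totient) *
      primSum q (fun χ => ‖∑ k ∈ range K, u k * χ (k : ZMod q)‖ *
        ‖∑ l ∈ range L, v l * χ (l : ZMod q)‖) ≤
      1 / ((Q : ℝ) * Real.sqrt Q) *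
      Real.sqrt (((4 * (Q : ℝ) ^ 2 + 4 * Real.pi * K) * ∑ k ∈ range K, ‖u k‖ ^ 2) *
        ((4 * (Q : ℝ) ^ 2 + 4 * Real.pi * L) * ∑ l ∈ range L, ‖v l‖ ^ 2)) := by
  classical
  have hQ' : (0 : ℝ) < Q := by exact_mod_cast hQ
  set U : ∀ q : ℕ, DirichletCharacter ℂ q → ℝ := fun q χ => ‖∑ k ∈ range K, u k * χ (k : ZMod q)‖ with hU
  set V : ∀ q : ℕ, DirichletCharacter ℂ q → ℝ := fun q χ => ‖∑ l ∈ range L, v l * χ (l : ZMod q)‖ with hV
  set X : ℕ → ℝ := fun q => Real.sqrt ((q : ℝ) / q.totient * primSum q (fun χ => U q χ ^ 2)) with hX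
  set Y : ℕ → ℝ := fun q => Real.sqrt ((q : ℝ) / q.totient * primSum q (fun χ => V q χ ^ 2)) with hY
  have hterm : ∀ q ∈ Ioc Q (2 * Q), 1 / (Real.sqrt q * q.totient) *
      primSum q (fun χ => U q χ * V q χ) ≤ 1 / ((Q : ℝ) * Real.sqrt Q) * (X q * Y q) := by
    intro q hq
    rw [Finset.mem_Ioc] at hq
    have hq0 : 0 < q := by omega
    have hq' : (0 : ℝ) < q := by exact_mod_cast hq0
    have hφ : (0 : ℝ) < q.totient := by exact_mod_cast Nat.totient_pos.2 hq0
    have hA : 0 ≤ primSum q (fun χ => U q χ ^ 2) := primSum_nonneg _ _ (fun _ => by positivity)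
    have hB : 0 ≤ primSum q (fun χ => V q χ ^ 2) := primSum_nonneg _ _ (fun _ => by positivity)
    have h1 : primSum q (fun χ => U q χ * V q χ) ≤
        Real.sqrt (primSum q (fun χ => U q χ ^ 2)) * Real.sqrt (primSum q (fun χ => V q χ ^ 2)) := by
      rw [← Real.sqrt_mul hA]
      exact Real.le_sqrt_of_sq_le (primSum_cauchy q (U q) (V q))
    have h2 : X q * Y q = (q : ℝ) / q.totient *
        (Real.sqrt (primSum q (fun χ => U q χ ^ 2)) * Real.sqrt (primSum q (fun χ => V q χ ^ 2))) := by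
      simp only [hX, hY]
      rw [Real.sqrt_mul (by positivity), Real.sqrt_mul (by positivity)]
      have h3 : Real.sqrt ((q : ℝ) / q.totient) * Real.sqrt ((q : ℝ) / q.totient) =
          (q : ℝ) / q.totient := Real.mul_self_sqrt (by positivity)
      linear_combination (Real.sqrt (primSum q (fun χ => U q χ ^ 2)) *
        Real.sqrt (primSum q (fun χ => V q χ ^ 2))) * h3
    rw [h2]
    set Z := Real.sqrt (primSum q (fun χ => U q χ ^ 2)) * Real.sqrt (primSum q (fun χ => V q χ ^ 2)) with hZ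
    have hZ0 : 0 ≤ Z := by positivity
    have hsq : Real.sqrt Q ≤ Real.sqrt q := by
      apply Real.sqrt_le_sqrt
      exact_mod_cast hq.1.le
    have hQq : (Q : ℝ) ≤ q := by exact_mod_cast hq.1.le
    have hs : (0 : ℝ) < Real.sqrt Q := Real.sqrt_pos.2 hQ'
    have hsq' : (0 : ℝ) < Real.sqrt q := Real.sqrt_pos.2 hq'
    calc 1 / (Real.sqrt q * q.totient) * primSum q (fun χ => U q χ * V q χ)
        ≤ 1 / (Real.sqrt q * q.totient) * Z := by gcongr
      _ = 1 / ((q : ℝ) * Real.sqrt q) * ((q : ℝ) / q.totient * Z) := by field_simp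
      _ ≤ 1 / ((Q : ℝ) * Real.sqrt Q) * ((q : ℝ) / q.totient * Z) := by gcongr
  refine le_trans (Finset.sum_le_sum hterm) ?_
  rw [← Finset.mul_sum]
  refine mul_le_mul_of_nonneg_left ?_ (by positivity)
  have hcs := Finset.sum_mul_sq_le_sq_mul_sq (Ioc Q (2 * Q)) X Y
  have hsub : Ioc Q (2 * Q) ⊆ Icc 1 (2 * Q) := by
    intro q hq
    rw [Finset.mem_Ioc] at hq
    rw [Finset.mem_Icc]
    omega
  have hXs : ∑ q ∈ Ioc Q (2 * Q), X q ^ 2 ≤
      (4 * (Q : ℝ) ^ 2 + 4 * Real.pi * K) * ∑ k ∈ range K, ‖u k‖ ^ 2 := by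
    have h1 := large_sieve_primSum (2 * Q) K u
    have h2 : ∑ q ∈ Ioc Q (2 * Q), X q ^ 2 ≤ ∑ q ∈ Icc 1 (2 * Q), (q : ℝ) / q.totient *
        primSum q (fun χ => ‖∑ n ∈ range K, u n * χ (n : ZMod q)‖ ^ 2) := by
      calc ∑ q ∈ Ioc Q (2 * Q), X q ^ 2 = ∑ q ∈ Ioc Q (2 * Q), (q : ℝ) / q.totient *
          primSum q (fun χ => ‖∑ n ∈ range K, u n * χ (n : ZMod q)‖ ^ 2) := by
            refine Finset.sum_congr rfl (fun q _ => ?_)
            simp only [hX]
            rw [Real.sq_sqrt]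
            exact mul_nonneg (by positivity) (primSum_nonneg _ _ (fun _ => by positivity))
        _ ≤ _ := Finset.sum_le_sum_of_subset_of_nonneg hsub (fun q _ _ =>
            mul_nonneg (by positivity) (primSum_nonneg _ _ (fun _ => by positivity)))
    refine le_trans h2 (le_trans h1 (le_of_eq ?_))
    push_cast
    ring
  have hYs : ∑ q ∈ Ioc Q (2 * Q), Y q ^ 2 ≤
      (4 * (Q : ℝ) ^ 2 + 4 * Real.pi * L) * ∑ l ∈ range L, ‖v l‖ ^ 2 := by
    have h1 := large_sieve_primSum (2 * Q) L v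
    have h2 : ∑ q ∈ Ioc Q (2 * Q), Y q ^ 2 ≤ ∑ q ∈ Icc 1 (2 * Q), (q : ℝ) / q.totient *
        primSum q (fun χ => ‖∑ n ∈ range L, v n * χ (n : ZMod q)‖ ^ 2) := by
      calc ∑ q ∈ Ioc Q (2 * Q), Y q ^ 2 = ∑ q ∈ Ioc Q (2 * Q), (q : ℝ) / q.totient *
          primSum q (fun χ => ‖∑ n ∈ range L, v n * χ (n : ZMod q)‖ ^ 2) := by
            refine Finset.sum_congr rfl (fun q _ => ?_)
            simp only [hY]
            rw [Real.sq_sqrt]
            exact mul_nonneg (by positivity) (primSum_nonneg _ _ (fun _ => by positivity))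
        _ ≤ _ := Finset.sum_le_sum_of_subset_of_nonneg hsub (fun q _ _ =>
            mul_nonneg (by positivity) (primSum_nonneg _ _ (fun _ => by positivity)))
    refine le_trans h2 (le_trans h1 (le_of_eq ?_))
    push_cast
    ring
  apply Real.le_sqrt_of_sq_le
  refine le_trans hcs ?_
  gcongr

end Pool.Agent.Lib.MP_6bc78b_nt.LS
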