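import Mathlib
import Pool.Agent.Lib.MP_6bc78b_nt.LS.Bilin

set_option autoImplicit false

open Finset MeasureTheory DirichletCharacter ZMod

namespace Pool.Agent.Lib.MP_6bc78b_nt.LS

/-- Orthogonality of characters in the form we use. -/
lemma char_orth (q : ℕ) [NeZero q] (b b' : ZMod q) :
    ∑ χ : DirichletCharacter ℂ q, χ b * χ⁻¹ b' =
      if b' = b ∧ IsUnit b then (q.totient : ℂ) else 0 := by
  classical
  by_cases hb' : IsUnit b'
  · have h3 : ∀ χ : DirichletCharacter ℂ q, χ b * χ⁻¹ b' = χ b'⁻¹ * χ b := by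
      intro χ
      rw [mul_comm]
      congr 1
      rw [MulChar.inv_apply_eq_inv']
      have h4 : χ b' * χ b'⁻¹ = 1 := by
        rw [← map_mul, ZMod.mul_inv_of_unit b' hb', map_one]
      exact inv_eq_of_mul_eq_one_right h4
    rw [Finset.sum_congr rfl (fun χ _ => h3 χ), sum_char_inv_mul_char_eq ℂ hb' b]
    by_cases hbb : b' = b
    · subst hbb; simp [hb']
    · simp [hbb]
  · have h3 : ∀ χ : DirichletCharacter ℂ q, χ b * χ⁻¹ b' = 0 := by
      intro χ
      rw [MulChar.map_nonunit _ hb', mul_zero]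
    rw [Finset.sum_congr rfl (fun χ _ => h3 χ), Finset.sum_const_zero, if_neg]
    rintro ⟨h, h'⟩
    exact hb' (h ▸ h')

/-- Complex valued sum over primitive characters. -/
noncomputable def primSumC (q : ℕ) (F : DirichletCharacter ℂ q → ℂ) : ℂ :=
  ∑ χ : DirichletCharacter ℂ q, open Classical in if χ.IsPrimitive then F χ else 0

lemma primSumC_congr (q : ℕ) (F G : DirichletCharacter ℂ q → ℂ)
    (h : ∀ χ : DirichletCharacter ℂ q, χ.IsPrimitive → F χ = G χ) :
    primSumC q F = primSumC q G := by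
  unfold primSumC
  refine Finset.sum_congr rfl (fun χ _ => ?_)
  split_ifs with h1
  · exact h χ h1
  · rfl

lemma primSumC_mul (q : ℕ) (c : ℂ) (F : DirichletCharacter ℂ q → ℂ) :
    c * primSumC q F = primSumC q (fun χ => c * F χ) := by
  unfold primSumC
  rw [Finset.mul_sum]
  refine Finset.sum_congr rfl (fun χ _ => ?_)
  split_ifs
  · rfl
  · rw [mul_zero]

lemma norm_primSumC_le (q : ℕ) (F : DirichletCharacter ℂ q → ℂ) :
    ‖primSumC q F‖ ≤ primSum q (fun χ => ‖F χ‖) := by
  unfold primSumC primSum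
  refine le_trans (norm_sum_le _ _) (Finset.sum_le_sum (fun χ _ => ?_))
  split_ifs
  · exact le_rfl
  · rw [norm_zero]

/-- Summation over all characters modulo N, sorted by the conductor. -/
lemma sum_by_conductor (N : ℕ) [NeZero N] (f : DirichletCharacter ℂ N → ℂ)
    (F : ∀ q : ℕ, DirichletCharacter ℂ q → ℂ)
    (h : ∀ (q : ℕ) (hq : q ∣ N) (ψ : DirichletCharacter ℂ q), ψ.IsPrimitive →
      f (changeLevel hq ψ) = F q ψ) :
    ∑ χ : DirichletCharacter ℂ N, f χ = ∑ q ∈ N.divisors, primSumC q (F q) := by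
  classical
  unfold primSumC
  have h1 : ∀ q ∈ N.divisors, (∑ χ : DirichletCharacter ℂ q, if χ.IsPrimitive then F q χ else 0) =
      ∑ χ ∈ (Finset.univ : Finset (DirichletCharacter ℂ q)).filter (fun χ => χ.IsPrimitive), F q χ := by
    intro q _
    rw [Finset.sum_filter]
  rw [Finset.sum_congr rfl h1, Finset.sum_sigma']
  symm
  refine Finset.sum_bij (fun p hp => changeLevel (Nat.dvd_of_mem_divisors
    (Finset.mem_sigma.1 hp).1) p.2) ?_ ?_ ?_ ?_
  · intro p hp; exact Finset.mem_univ _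
  · rintro ⟨q, ψ⟩ hp ⟨q', ψ'⟩ hp' heq
    simp only at heq
    have hψ : ψ.IsPrimitive := (Finset.mem_filter.1 (Finset.mem_sigma.1 hp).2).2
    have hψ' : ψ'.IsPrimitive := (Finset.mem_filter.1 (Finset.mem_sigma.1 hp').2).2
    have h2 := congrArg DirichletCharacter.conductor heq
    rw [conductor_changeLevel, conductor_changeLevel] at h2
    rw [isPrimitive_def] at hψ hψ'
    rw [hψ, hψ'] at h2
    subst h2
    have h3 := changeLevel_injective _ heq
    rw [h3]
  · intro χ _
    refine ⟨⟨χ.conductor, χ.primitiveCharacter⟩, ?_, ?_⟩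
    · rw [Finset.mem_sigma]
      refine ⟨Nat.mem_divisors.2 ⟨conductor_dvd_level χ, NeZero.ne N⟩, ?_⟩
      rw [Finset.mem_filter]
      exact ⟨Finset.mem_univ _, primitiveCharacter_isPrimitive χ⟩
    · exact changeLevel_primitiveCharacter χ
  · rintro ⟨q, ψ⟩ hp
    have hψ : ψ.IsPrimitive := (Finset.mem_filter.1 (Finset.mem_sigma.1 hp).2).2
    exact (h q _ ψ hψ).symm

lemma sum_range_mul (q t : ℕ) (f : ℕ → ℂ) :
    ∑ x ∈ range (q * t), f x = ∑ v ∈ range t, ∑ u ∈ range q, f (u + q * v) := by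
  induction t with
  | zero => simp
  | succ t ih =>
    rw [Nat.mul_succ, Finset.sum_range_add, ih, Finset.sum_range_succ]
    congr 1
    refine Finset.sum_congr rfl (fun u _ => ?_)
    rw [add_comm]

lemma sum_range_dvd (d n : ℕ) (hd : 0 < d) (f : ℕ → ℂ) :
    ∑ x ∈ range (d * n), (if d ∣ x then f x else 0) = ∑ v ∈ range n, f (d * v) := by
  rw [sum_range_mul]
  refine Finset.sum_congr rfl (fun v _ => ?_)
  rw [Finset.sum_eq_single 0]
  · simp
  · intro u hu hu0
    rw [if_neg]
    intro h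
    have h1 : d ∣ u := (Nat.dvd_add_left (Dvd.intro v rfl)).1 h
    have h2 := Nat.le_of_dvd (Nat.pos_of_ne_zero hu0) h1
    rw [Finset.mem_range] at hu
    omega
  · intro h
    exact absurd (Finset.mem_range.2 hd) h

lemma sum_zmod_range (N : ℕ) [NeZero N] (f : ZMod N → ℂ) :
    ∑ x : ZMod N, f x = ∑ x ∈ range N, f (x : ZMod N) := by
  symm
  refine Finset.sum_bij' (fun x _ => (x : ZMod N)) (fun b _ => b.val) ?_ ?_ ?_ ?_ ?_
  · intro x _; exact Finset.mem_univ _
  · intro b _; exact Finset.mem_range.2 (ZMod.val_lt b)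
  · intro x hx; exact ZMod.val_cast_of_lt (Finset.mem_range.1 hx)
  · intro b _; exact ZMod.natCast_zmod_val b
  · intro x _; rfl

lemma std_nat (N : ℕ) [NeZero N] (x : ℕ) : stdAddChar (x : ZMod N) = ex ((x : ℝ) / N) := by
  have h := stdAddChar_coe (N := N) (x : ℤ)
  rw [Int.cast_natCast] at h
  rw [h]
  unfold ex
  congr 1
  push_cast
  ring

lemma sum_ex_range (t : ℕ) (ht : 1 < t) : ∑ v ∈ range t, ex ((v : ℝ) / t) = 0 := by
  have : NeZero t := ⟨by omega⟩
  have h1 : ∀ v ∈ range t, ex ((v : ℝ) / t) = (stdAddChar (1 : ZMod t)) ^ v := by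
    intro v _
    rw [← std_nat, ← AddChar.map_nsmul_eq_pow]
    simp
  rw [Finset.sum_congr rfl h1]
  have hne : stdAddChar (1 : ZMod t) ≠ 1 := by
    intro h
    have h2 : stdAddChar (1 : ZMod t) = stdAddChar (0 : ZMod t) := by
      rw [h, AddChar.map_zero_eq_one]
    have h3 := injective_stdAddChar h2
    have : Fact (1 < t) := ⟨ht⟩
    exact one_ne_zero h3
  have h4 := geom_sum_eq hne t
  rw [h4, ← AddChar.map_nsmul_eq_pow]
  simp

lemma moebius_coprime (x s : ℕ) (hs : 0 < s) :
    (∑ d ∈ s.divisors, if d ∣ x then (ArithmeticFunction.moebius d : ℂ) else 0) =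
      if x.Coprime s then 1 else 0 := by
  have hg : Nat.gcd x s ≠ 0 := Nat.gcd_ne_zero_right hs.ne'
  have h1 : (s.divisors.filter (fun d => d ∣ x)) = (Nat.gcd x s).divisors := by
    ext d
    rw [Finset.mem_filter, Nat.mem_divisors, Nat.mem_divisors, Nat.dvd_gcd_iff]
    constructor
    · rintro ⟨⟨h1, _⟩, h3⟩; exact ⟨⟨h3, h1⟩, hg⟩
    · rintro ⟨⟨h1, h2⟩, _⟩; exact ⟨⟨h2, hs.ne'⟩, h1⟩
  rw [← Finset.sum_filter, h1]
  have h2 : (∑ d ∈ (Nat.gcd x s).divisors, (ArithmeticFunction.moebius d : ℤ)) =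
      if Nat.gcd x s = 1 then 1 else 0 := by
    have h3 : (ArithmeticFunction.moebius * (ArithmeticFunction.zeta : ArithmeticFunction ℤ)) (Nat.gcd x s) =
        (1 : ArithmeticFunction ℤ) (Nat.gcd x s) := by
      rw [ArithmeticFunction.moebius_mul_coe_zeta]
    rw [ArithmeticFunction.coe_mul_zeta_apply, ArithmeticFunction.one_apply] at h3
    exact h3
  have h3 := congrArg (fun z : ℤ => (z : ℂ)) h2
  push_cast at h3
  rw [h3]

/-- The Gauss sum of an induced character. -/
lemma gaussSum_changeLevel (N q : ℕ) [NeZero N] [NeZero q] (hq : q ∣ N) (ψ : DirichletCharacter ℂ q) :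
    gaussSum (changeLevel hq ψ) stdAddChar =
      (ArithmeticFunction.moebius (N / q) : ℂ) * ψ ((N / q : ℕ) : ZMod q) * gaussSum ψ stdAddChar := by
  classical
  set s := N / q with hs
  have hN : N = q * s := (Nat.mul_div_cancel' hq).symm
  have hq0 : 0 < q := Nat.pos_of_ne_zero (NeZero.ne q)
  have hN0 : 0 < N := Nat.pos_of_ne_zero (NeZero.ne N)
  have hs0 : 0 < s := Nat.div_pos (Nat.le_of_dvd hN0 hq) hq0
  have h1 : gaussSum (changeLevel hq ψ) stdAddChar =
      ∑ x ∈ range N, (∑ d ∈ s.divisors, if d ∣ x then (ArithmeticFunction.moebius d : ℂ) else 0) *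
        (ψ (x : ZMod q) * ex ((x : ℝ) / N)) := by
    unfold gaussSum
    rw [sum_zmod_range]
    refine Finset.sum_congr rfl (fun x _ => ?_)
    rw [moebius_coprime x s hs0, std_nat]
    by_cases hx : x.Coprime N
    · have hxs : x.Coprime s := Nat.Coprime.coprime_dvd_right ⟨q, by rw [hN]; ring⟩ hx
      rw [if_pos hxs, one_mul]
      congr 1
      have h2 := changeLevel_eq_cast_of_dvd' ψ hq (a := (x : ℤ)) (Nat.isCoprime_iff_coprime.2 hx)
      simpa using h2
    · have h2 : changeLevel hq ψ (x : ZMod N) = 0 := by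
        apply MulChar.map_nonunit
        rw [ZMod.isUnit_iff_coprime]
        exact hx
      rw [h2, zero_mul]
      by_cases hxs : x.Coprime s
      · have hxq : ¬ x.Coprime q := by
          intro h
          apply hx
          rw [hN]
          exact Nat.Coprime.mul_right h hxs
        have h3 : ψ (x : ZMod q) = 0 := by
          apply MulChar.map_nonunit
          rw [ZMod.isUnit_iff_coprime]
          exact hxq
        rw [h3]; ring
      · rw [if_neg hxs, zero_mul]
  rw [h1]
  simp_rw [Finset.sum_mul]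
  rw [Finset.sum_comm]
  have h2 : ∀ d ∈ s.divisors, ∑ x ∈ range N, (if d ∣ x then (ArithmeticFunction.moebius d : ℂ) else 0) *
      (ψ (x : ZMod q) * ex ((x : ℝ) / N)) =
      if d = s then (ArithmeticFunction.moebius s : ℂ) * ψ (s : ZMod q) * gaussSum ψ stdAddChar else 0 := by
    intro d hd
    have hd' := Nat.mem_divisors.1 hd
    obtain ⟨t, ht⟩ := hd'.1
    have hd0 : 0 < d := Nat.pos_of_dvd_of_pos hd'.1 hs0
    have ht0 : 0 < t := by
      rcases Nat.eq_zero_or_pos t with h | h
      · subst h; omega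
      · exact h
    have hNd : N = d * (q * t) := by rw [hN, ht]; ring
    have h3 : ∀ x ∈ range N, (if d ∣ x then (ArithmeticFunction.moebius d : ℂ) else 0) *
        (ψ (x : ZMod q) * ex ((x : ℝ) / N)) = if d ∣ x then (ArithmeticFunction.moebius d : ℂ) *
        (ψ (x : ZMod q) * ex ((x : ℝ) / N)) else 0 := by
      intro x _
      split_ifs <;> simp
    rw [Finset.sum_congr rfl h3]
    have h4 : ∑ x ∈ range N, (if d ∣ x then (ArithmeticFunction.moebius d : ℂ) *
        (ψ (x : ZMod q) * ex ((x : ℝ) / N)) else 0) = ∑ x ∈ range (d * (q * t)), (if d ∣ x then (ArithmeticFunction.moebius d : ℂ) *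
        (ψ (x : ZMod q) * ex ((x : ℝ) / N)) else 0) := by rw [← hNd]
    rw [h4, sum_range_dvd d (q * t) hd0, sum_range_mul]
    have hq' : (q : ℝ) ≠ 0 := by positivity
    have ht' : (t : ℝ) ≠ 0 := by positivity
    have hd'' : (d : ℝ) ≠ 0 := by positivity
    have h5 : ∀ v ∈ range t, ∑ u ∈ range q, (ArithmeticFunction.moebius d : ℂ) *
        (ψ ((d * (u + q * v) : ℕ) : ZMod q) * ex (((d * (u + q * v) : ℕ) : ℝ) / N)) =
        ex ((v : ℝ) / t) * ∑ u ∈ range q, (ArithmeticFunction.moebius d : ℂ) *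
        (ψ ((d * u : ℕ) : ZMod q) * ex ((u : ℝ) / (q * t))) := by
      intro v _
      rw [Finset.mul_sum]
      refine Finset.sum_congr rfl (fun u _ => ?_)
      have h6 : ((d * (u + q * v) : ℕ) : ZMod q) = ((d * u : ℕ) : ZMod q) := by
        push_cast
        rw [ZMod.natCast_self]
        ring
      have h7 : (((d * (u + q * v) : ℕ) : ℝ) / N) = (v : ℝ) / t + (u : ℝ) / (q * t) := by
        rw [hNd]
        push_cast
        field_simp
        ring
      rw [h6, h7, ex_add]
      ring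
    rw [Finset.sum_congr rfl h5, ← Finset.sum_mul]
    by_cases hds : d = s
    · rw [if_pos hds]
      have ht1 : t = 1 := by
        have : s * t = s * 1 := by
          rw [hds] at ht
          rw [mul_one]; exact ht.symm
        exact Nat.eq_of_mul_eq_mul_left hs0 this
      rw [hds]
      subst ht1
      unfold gaussSum
      rw [sum_zmod_range]
      simp only [Finset.range_one, Finset.sum_singleton, Nat.cast_zero, zero_div, ex_zero, one_mul,
        Nat.cast_one, mul_one]
      rw [Finset.mul_sum]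
      refine Finset.sum_congr rfl (fun u _ => ?_)
      rw [std_nat]
      push_cast
      rw [map_mul]
      ring
    · rw [if_neg hds]
      have ht1 : 1 < t := by
        rcases Nat.lt_or_ge 1 t with h | h
        · exact h
        · exfalso
          apply hds
          have : t = 1 := by omega
          rw [ht, this, mul_one]
      rw [sum_ex_range t ht1, zero_mul]
  rw [Finset.sum_congr rfl h2, Finset.sum_ite_eq' s.divisors s, if_pos (Nat.mem_divisors_self s hs0.ne')]

/-- The Gauss sum of a character modulo q, as a sum over residues 0, ..., q-1. -/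
noncomputable def tau (q : ℕ) (ψ : DirichletCharacter ℂ q) : ℂ :=
  ∑ x ∈ range q, ψ (x : ZMod q) * ex ((x : ℝ) / q)

lemma gaussSum_eq_tau (q : ℕ) [NeZero q] (ψ : DirichletCharacter ℂ q) :
    gaussSum ψ stdAddChar = tau q ψ := by
  unfold gaussSum tau
  rw [sum_zmod_range]
  refine Finset.sum_congr rfl (fun x _ => ?_)
  rw [std_nat]

lemma norm_tau (q : ℕ) (hq : 0 < q) (ψ : DirichletCharacter ℂ q) (h : ψ.IsPrimitive) :
    ‖tau q ψ‖ = Real.sqrt q := by
  have : NeZero q := ⟨hq.ne'⟩
  rw [← gaussSum_eq_tau, ← norm_gaussSum_sq h, Real.sqrt_sq (norm_nonneg _)]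

/-- Additive characters at units, expanded into primitive characters. -/
lemma ex_unit (N : ℕ) (hN : 0 < N) (b : ℕ) (hb : b.Coprime N) :
    (N.totient : ℂ) * ex ((b : ℝ) / N) = ∑ q ∈ N.divisors, primSumC q (fun ψ =>
      (ArithmeticFunction.moebius (N / q) : ℂ) * ψ⁻¹ ((N / q : ℕ) : ZMod q) *
        tau q ψ⁻¹ * ψ (b : ZMod q)) := by
  classical
  have : NeZero N := ⟨hN.ne'⟩
  rw [← sum_by_conductor N (fun χ => gaussSum χ⁻¹ stdAddChar * χ (b : ZMod N))]
  · have h1 : ∀ χ : DirichletCharacter ℂ N, gaussSum χ⁻¹ stdAddChar * χ (b : ZMod N) =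
        ∑ x : ZMod N, stdAddChar x * (χ (b : ZMod N) * χ⁻¹ x) := by
      intro χ
      unfold gaussSum
      rw [Finset.sum_mul]
      refine Finset.sum_congr rfl (fun x _ => ?_)
      ring
    rw [Finset.sum_congr rfl (fun χ _ => h1 χ), Finset.sum_comm]
    simp_rw [← Finset.mul_sum, char_orth]
    rw [Finset.sum_eq_single (b : ZMod N)]
    · rw [if_pos ⟨rfl, (ZMod.isUnit_iff_coprime b N).2 hb⟩, std_nat, mul_comm]
    · intro x _ hx
      rw [if_neg (fun h => hx h.1), mul_zero]
    · intro h; exact absurd (Finset.mem_univ _) h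
  · intro q hq ψ _
    have hq0 : 0 < q := Nat.pos_of_dvd_of_pos hq hN
    have : NeZero q := ⟨hq0.ne'⟩
    rw [← map_inv, gaussSum_changeLevel, gaussSum_eq_tau]
    congr 1
    have h2 := changeLevel_eq_cast_of_dvd' ψ hq (a := (b : ℤ)) (Nat.isCoprime_iff_coprime.2 hb)
    simpa using h2

/-- The weight c_r(n)/phi(r), where c_r(n) is the Ramanujan sum, for squarefree r. -/
noncomputable def ram (r n : ℕ) : ℂ :=
  (ArithmeticFunction.moebius (r / Nat.gcd r n) : ℂ) / ((r / Nat.gcd r n).totient : ℂ)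

/-- Exact expansion of e(n/m), m squarefree, into primitive characters. -/
theorem ex_decomp (m : ℕ) (hm : Squarefree m) (n : ℕ) :
    ex ((n : ℝ) / m) = ∑ q ∈ m.divisors, ram (m / q) n / (q.totient : ℂ) *
      primSumC q (fun ψ => tau q ψ⁻¹ * ψ⁻¹ ((m / q : ℕ) : ZMod q) * ψ (n : ZMod q)) := by
  classical
  have hm0 : 0 < m := Nat.pos_of_ne_zero hm.ne_zero
  set g := Nat.gcd n m with hg
  have hg0 : 0 < g := Nat.gcd_pos_of_pos_right _ hm0
  obtain ⟨m', hm'⟩ : g ∣ m := Nat.gcd_dvd_right n m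
  obtain ⟨n', hn'⟩ : g ∣ n := Nat.gcd_dvd_left n m
  have hm'0 : 0 < m' := by
    rcases Nat.eq_zero_or_pos m' with h | h
    · rw [h, mul_zero] at hm'; omega
    · exact h
  have hcop : n'.Coprime m' := by
    have h1 : Nat.gcd n m = g * Nat.gcd n' m' := by
      conv_lhs => rw [hn', hm', Nat.gcd_mul_left]
    rw [← hg] at h1
    have h2 : g * 1 = g * Nat.gcd n' m' := by rw [mul_one]; exact h1
    exact (Nat.eq_of_mul_eq_mul_left hg0 h2).symm
  have hsq := Nat.squarefree_mul_iff.1 (hm' ▸ hm)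
  have hgm' : g.Coprime m' := hsq.1
  have hsm' : Squarefree m' := hsq.2.2
  have hL : ex ((n : ℝ) / m) = ex ((n' : ℝ) / m') := by
    congr 1
    rw [hm', hn']
    push_cast
    have : (g : ℝ) ≠ 0 := by positivity
    field_simp
  have hφ : (m'.totient : ℂ) ≠ 0 := by
    have := Nat.totient_pos.2 hm'0
    exact_mod_cast this.ne'
  have h1 := ex_unit m' hm'0 n' hcop
  have h2 : ex ((n' : ℝ) / m') = (1 / (m'.totient : ℂ)) * ∑ q ∈ m'.divisors, primSumC q (fun ψ =>
      (ArithmeticFunction.moebius (m' / q) : ℂ) * ψ⁻¹ ((m' / q : ℕ) : ZMod q) *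
        tau q ψ⁻¹ * ψ (n' : ZMod q)) := by
    rw [← h1]
    field_simp
  rw [hL, h2, Finset.mul_sum]
  -- restrict the sum over q | m to q | m'
  have hsub : m'.divisors ⊆ m.divisors := by
    apply Nat.divisors_subset_of_dvd hm0.ne'
    exact ⟨g, by rw [hm']; ring⟩
  rw [← Finset.sum_subset hsub]
  · refine Finset.sum_congr rfl (fun q hq => ?_)
    have hq' := Nat.mem_divisors.1 hq
    obtain ⟨s, hs⟩ := hq'.1
    have hq0 : 0 < q := Nat.pos_of_dvd_of_pos hq'.1 hm'0
    have hs0 : 0 < s := by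
      rcases Nat.eq_zero_or_pos s with h | h
      · rw [h, mul_zero] at hs; omega
      · exact h
    have hms : m' / q = s := by rw [hs]; exact Nat.mul_div_cancel_left s hq0
    have hmq : m / q = g * s := by
      rw [hm', hs]
      rw [show g * (q * s) = q * (g * s) by ring]
      exact Nat.mul_div_cancel_left _ hq0
    have hqs : q.Coprime s := (Nat.squarefree_mul_iff.1 (hs ▸ hsm')).1
    have hgcd : Nat.gcd (g * s) n = g := by
      conv_lhs => rw [hn', Nat.gcd_mul_left]
      have h3 : s.Coprime n' := (Nat.Coprime.coprime_dvd_right ⟨q, by rw [hs]; ring⟩ hcop).symm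
      rw [h3, mul_one]
    have hram : ram (m / q) n = (ArithmeticFunction.moebius s : ℂ) / (s.totient : ℂ) := by
      unfold ram
      rw [hmq, hgcd, Nat.mul_div_cancel_left s hg0]
    have hφm : (m'.totient : ℂ) = (q.totient : ℂ) * s.totient := by
      rw [hs, Nat.totient_mul hqs]
      push_cast; ring
    have hφq : (q.totient : ℂ) ≠ 0 := by
      have := Nat.totient_pos.2 hq0
      exact_mod_cast this.ne'
    have hφs : (s.totient : ℂ) ≠ 0 := by
      have := Nat.totient_pos.2 hs0
      exact_mod_cast this.ne'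
    rw [hram, hms, hmq, primSumC_mul, primSumC_mul]
    apply primSumC_congr
    intro ψ _
    rw [hφm]
    have hgq : g.Coprime q := Nat.Coprime.coprime_dvd_right hq'.1 hgm'
    have hψg : ψ⁻¹ (g : ZMod q) * ψ (g : ZMod q) = 1 := by
      have hu : IsUnit (g : ZMod q) := (ZMod.isUnit_iff_coprime g q).2 hgq
      rw [← MulChar.mul_apply, inv_mul_cancel, MulChar.one_apply hu]
    have hn2 : (n : ZMod q) = (g : ZMod q) * (n' : ZMod q) := by
      conv_lhs => rw [hn']
      push_cast; ring
    rw [hn2, map_mul]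
    push_cast
    rw [map_mul]
    field_simp
    linear_combination (-(ArithmeticFunction.moebius s : ℂ) * ψ⁻¹ (s : ZMod q) * tau q ψ⁻¹ *
      ψ (n' : ZMod q)) * hψg
  · intro q hq hq'
    have hq1 := Nat.mem_divisors.1 hq
    have hq0 : 0 < q := Nat.pos_of_dvd_of_pos hq1.1 hm0
    have hnc : ¬ n.Coprime q := by
      intro h
      apply hq'
      rw [Nat.mem_divisors]
      refine ⟨?_, hm'0.ne'⟩
      have h3 : q.Coprime g := by
        have : g ∣ n := Nat.gcd_dvd_left n m
        exact (Nat.Coprime.coprime_dvd_left this h).symm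
      have h4 : q ∣ g * m' := by rw [← hm']; exact hq1.1
      exact Nat.Coprime.dvd_of_dvd_mul_left h3 h4
    have h0 : primSumC q (fun ψ => tau q ψ⁻¹ * ψ⁻¹ ((m / q : ℕ) : ZMod q) * ψ (n : ZMod q)) =
        primSumC q (fun _ => 0) := by
      apply primSumC_congr
      intro ψ _
      rw [MulChar.map_nonunit ψ (fun h => hnc ((ZMod.isUnit_iff_coprime n q).1 h)), mul_zero]
    rw [h0]
    unfold primSumC
    simp

end Pool.Agent.Lib.MP_6bc78b_nt.LS
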