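import Mathlib
import Pool.Agent.Lib.MP_6bc78b_nt.LS.Decomp

set_option autoImplicit false

open Finset MeasureTheory DirichletCharacter ZMod

namespace Pool.Agent.Lib.MP_6bc78b_nt.LS

lemma primSumC_inv (q : ℕ) (F : DirichletCharacter ℂ q → ℂ) :
    primSumC q (fun ψ => F ψ⁻¹) = primSumC q F := by
  classical
  unfold primSumC
  have h : ∀ χ : DirichletCharacter ℂ q, (if χ.IsPrimitive then F χ⁻¹ else 0) =
      (fun χ : DirichletCharacter ℂ q => if χ.IsPrimitive then F χ else 0) (Equiv.inv (DirichletCharacter ℂ q) χ) := by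
    intro χ
    simp only [Equiv.inv_apply]
    have h1 : (χ⁻¹).IsPrimitive ↔ χ.IsPrimitive := by
      constructor
      · intro h
        have := inv_isPrimitive h
        rwa [inv_inv] at this
      · exact inv_isPrimitive
    by_cases h2 : χ.IsPrimitive
    · rw [if_pos h2, if_pos (h1.2 h2)]
    · rw [if_neg h2, if_neg (fun h3 => h2 (h1.1 h3))]
  rw [Finset.sum_congr rfl (fun χ _ => h χ)]
  exact Equiv.sum_comp (Equiv.inv (DirichletCharacter ℂ q))
    (fun χ : DirichletCharacter ℂ q => if χ.IsPrimitive then F χ else 0)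

lemma conj_primSumC (q : ℕ) (F : DirichletCharacter ℂ q → ℂ) :
    (starRingEnd ℂ) (primSumC q F) = primSumC q (fun ψ => (starRingEnd ℂ) (F ψ)) := by
  unfold primSumC
  rw [map_sum]
  refine Finset.sum_congr rfl (fun χ _ => ?_)
  split_ifs
  · rfl
  · exact map_zero _

lemma star_char' {q : ℕ} (χ : DirichletCharacter ℂ q) (b : ZMod q) :
    (starRingEnd ℂ) (χ b) = χ⁻¹ b := by
  rcases Nat.eq_zero_or_pos q with h | h
  · subst h
    have h := MulChar.star_apply χ b
    rw [MulChar.star_eq_inv] at h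
    rw [h]; rfl
  · have : NeZero q := ⟨h.ne'⟩
    exact star_char χ b

lemma conj_ram (r n : ℕ) : (starRingEnd ℂ) (ram r n) = ram r n := by
  unfold ram
  rw [map_div₀, Complex.conj_natCast, map_intCast]

/-- Exact expansion of e(-n/m), m squarefree, into primitive characters. -/
theorem ex_neg_decomp (m : ℕ) (hm : Squarefree m) (n : ℕ) :
    ex (-((n : ℝ) / m)) = ∑ q ∈ m.divisors, ram (m / q) n / (q.totient : ℂ) *
      primSumC q (fun ψ => (starRingEnd ℂ) (tau q ψ) * ψ⁻¹ ((m / q : ℕ) : ZMod q) * ψ (n : ZMod q)) := by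
  rw [← conj_ex, ex_decomp m hm n, map_sum]
  refine Finset.sum_congr rfl (fun q _ => ?_)
  rw [map_mul, map_div₀, conj_ram, Complex.conj_natCast, conj_primSumC]
  congr 1
  rw [← primSumC_inv q (fun ψ => (starRingEnd ℂ) (tau q ψ) * ψ⁻¹ ((m / q : ℕ) : ZMod q) *
    ψ (n : ZMod q))]
  apply primSumC_congr
  intro ψ _
  rw [map_mul, map_mul, star_char', star_char', inv_inv]

lemma primSumC_one (F : DirichletCharacter ℂ 1 → ℂ) : primSumC 1 F = F 1 := by
  classical
  unfold primSumC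
  rw [Finset.sum_eq_single 1]
  · rw [if_pos isPrimitive_one_level_one]
  · intro χ _ hχ
    exact absurd (level_one χ) hχ
  · intro h; exact absurd (Finset.mem_univ _) h

lemma tau_one : tau 1 1 = 1 := by
  unfold tau
  have h : ((0 : ℕ) : ZMod 1) = 1 := Subsingleton.elim _ _
  rw [Finset.sum_range_one, h]
  simp [ex_zero]

lemma ex_neg_sub_ram (m : ℕ) (hm : Squarefree m) (n : ℕ) :
    ex (-((n : ℝ) / m)) - ram m n = ∑ q ∈ m.divisors.erase 1, ram (m / q) n / (q.totient : ℂ) *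
      primSumC q (fun ψ => (starRingEnd ℂ) (tau q ψ) * ψ⁻¹ ((m / q : ℕ) : ZMod q) * ψ (n : ZMod q)) := by
  have hm0 : m ≠ 0 := hm.ne_zero
  rw [ex_neg_decomp m hm n, ← Finset.add_sum_erase m.divisors _ (Nat.one_mem_divisors.2 hm0)]
  have h1 : ram (m / 1) n / ((Nat.totient 1 : ℕ) : ℂ) *
      primSumC 1 (fun ψ => (starRingEnd ℂ) (tau 1 ψ) * ψ⁻¹ ((m / 1 : ℕ) : ZMod 1) * ψ (n : ZMod 1)) =
      ram m n := by
    rw [primSumC_one, tau_one]
    have h2 : (n : ZMod 1) = 1 := Subsingleton.elim _ _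
    have h3 : ((m / 1 : ℕ) : ZMod 1) = 1 := Subsingleton.elim _ _
    rw [h2, h3]
    simp
  rw [h1]
  ring

/-- The Ramanujan weight as a divisor sum. -/
lemma ram_eq (r n : ℕ) (hr : Squarefree r) :
    ram r n = (1 / (r.totient : ℂ)) * ∑ d ∈ r.divisors, if d ∣ n then (d : ℂ) *
      (ArithmeticFunction.moebius (r / d) : ℂ) else 0 := by
  classical
  have hr0 : 0 < r := Nat.pos_of_ne_zero hr.ne_zero
  set g := Nat.gcd r n with hg
  have hg0 : 0 < g := Nat.gcd_pos_of_pos_left _ hr0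
  obtain ⟨s, hs⟩ : g ∣ r := Nat.gcd_dvd_left r n
  have hs0 : 0 < s := by
    rcases Nat.eq_zero_or_pos s with h | h
    · rw [h, mul_zero] at hs; omega
    · exact h
  have hsq := Nat.squarefree_mul_iff.1 (hs ▸ hr)
  have hfil : (r.divisors.filter (fun d => d ∣ n)) = g.divisors := by
    ext d
    rw [Finset.mem_filter, Nat.mem_divisors, Nat.mem_divisors, hg, Nat.dvd_gcd_iff]
    constructor
    · rintro ⟨⟨h1, _⟩, h3⟩; exact ⟨⟨h1, h3⟩, hg0.ne'⟩
    · rintro ⟨⟨h1, h2⟩, _⟩; exact ⟨⟨h1, hr0.ne'⟩, h2⟩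
  rw [← Finset.sum_filter, hfil]
  have h1 : ∀ d ∈ g.divisors, (d : ℂ) * (ArithmeticFunction.moebius (r / d) : ℂ) =
      (ArithmeticFunction.moebius s : ℂ) * ((d : ℂ) * (ArithmeticFunction.moebius (g / d) : ℂ)) := by
    intro d hd
    obtain ⟨t, ht⟩ := (Nat.mem_divisors.1 hd).1
    have hd0 : 0 < d := Nat.pos_of_dvd_of_pos (Nat.mem_divisors.1 hd).1 hg0
    have h2 : r / d = t * s := by
      rw [hs, ht, mul_assoc]; exact Nat.mul_div_cancel_left _ hd0
    have h3 : g / d = t := by rw [ht]; exact Nat.mul_div_cancel_left _ hd0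
    rw [h2, h3, ArithmeticFunction.isMultiplicative_moebius.map_mul_of_coprime]
    · push_cast; ring
    · exact Nat.Coprime.coprime_dvd_left ⟨d, by rw [ht]; ring⟩ hsq.1
  rw [Finset.sum_congr rfl h1, ← Finset.mul_sum]
  have h2 : ∑ d ∈ g.divisors, (d : ℂ) * (ArithmeticFunction.moebius (g / d) : ℂ) = (g.totient : ℂ) := by
    have h3 := (ArithmeticFunction.sum_eq_iff_sum_mul_moebius_eq (f := fun n => (n.totient : ℂ))
      (g := fun n => (n : ℂ))).1 (fun n _ => by exact_mod_cast Nat.sum_totient n) g hg0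
    rw [Nat.sum_divisorsAntidiagonal' (fun x y => (ArithmeticFunction.moebius x : ℂ) * (y : ℂ))] at h3
    rw [← h3]
    refine Finset.sum_congr rfl (fun d _ => ?_)
    ring
  rw [h2]
  unfold ram
  rw [← hg]
  have h3 : r / g = s := by rw [hs]; exact Nat.mul_div_cancel_left _ hg0
  rw [h3]
  have h4 : (r.totient : ℂ) = (g.totient : ℂ) * s.totient := by
    rw [hs, Nat.totient_mul hsq.1]; push_cast; ring
  have hφg : (g.totient : ℂ) ≠ 0 := by
    have := Nat.totient_pos.2 hg0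
    exact_mod_cast this.ne'
  have hφs : (s.totient : ℂ) ≠ 0 := by
    have := Nat.totient_pos.2 hs0
    exact_mod_cast this.ne'
  rw [h4]
  field_simp

end Pool.Agent.Lib.MP_6bc78b_nt.LS
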