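import Mathlib
import Pool.Agent.Lib.MP_6bc78b_nt.LS.NonPrin

set_option autoImplicit false

open Finset MeasureTheory DirichletCharacter ZMod

namespace Pool.Agent.Lib.MP_6bc78b_nt.LS

lemma norm_ex_sub_one (q x : ℕ) (hx : 0 < x) (hxq : x < q) :
    4 * (min x (q - x) : ℕ) / (q : ℝ) ≤ ‖ex ((x : ℝ) / q) - 1‖ := by
  have hq : (0 : ℝ) < q := by
    have : 0 < q := by omega
    exact_mod_cast this
  have h1 : ‖ex ((x : ℝ) / q) - 1‖ = ‖2 * Real.sin (Real.pi * (x / q))‖ := by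
    have h := Complex.norm_exp_I_mul_ofReal_sub_one (2 * Real.pi * ((x : ℝ) / q))
    unfold ex
    have h2 : (2 * Real.pi * Complex.I * (((x : ℝ) / q : ℝ) : ℂ) : ℂ) =
        Complex.I * ((2 * Real.pi * ((x : ℝ) / q) : ℝ) : ℂ) := by push_cast; ring
    rw [h2, h]
    congr 2
    ring_nf
  rw [h1]
  rw [Real.norm_eq_abs]
  refine le_trans ?_ (le_abs_self _)
  have hπ := Real.pi_pos
  rcases Nat.le_total x (q - x) with h | h
  · rw [min_eq_left h]
    have h2 : (x : ℝ) / q ≤ 1 / 2 := by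
      rw [div_le_div_iff₀ hq (by norm_num)]
      have : 2 * x ≤ q := by omega
      have h3 : (2 : ℝ) * x ≤ q := by exact_mod_cast this
      linarith
    have h3 := Real.mul_le_sin (x := Real.pi * (x / q)) (by positivity) (by nlinarith)
    have h4 : 2 / Real.pi * (Real.pi * ((x : ℝ) / q)) = 2 * x / q := by field_simp
    rw [h4] at h3
    calc 4 * (x : ℝ) / q = 2 * (2 * x / q) := by ring
      _ ≤ _ := by linarith
  · rw [min_eq_right h]
    have hxq' : ((q - x : ℕ) : ℝ) = q - x := by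
      rw [Nat.cast_sub hxq.le]
    have h2 : ((q - x : ℕ) : ℝ) / q ≤ 1 / 2 := by
      rw [div_le_div_iff₀ hq (by norm_num)]
      have : 2 * (q - x) ≤ q := by omega
      have h3 : (2 : ℝ) * ((q - x : ℕ) : ℝ) ≤ q := by exact_mod_cast this
      linarith
    have h3 := Real.mul_le_sin (x := Real.pi * (((q - x : ℕ) : ℝ) / q)) (by positivity) (by nlinarith)
    have h4 : 2 / Real.pi * (Real.pi * (((q - x : ℕ) : ℝ) / q)) = 2 * ((q - x : ℕ) : ℝ) / q := by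
      field_simp
    rw [h4] at h3
    have h5 : Real.sin (Real.pi * (((q - x : ℕ) : ℝ) / q)) = Real.sin (Real.pi * (x / q)) := by
      rw [hxq', ← Real.sin_pi_sub]
      congr 1
      field_simp
      ring
    rw [h5] at h3
    calc 4 * ((q - x : ℕ) : ℝ) / q = 2 * (2 * ((q - x : ℕ) : ℝ) / q) := by ring
      _ ≤ _ := by linarith

lemma norm_geom (q x N : ℕ) (hx : 0 < x) (hxq : x < q) :
    ‖∑ n ∈ Icc 1 N, ex ((x : ℝ) * n / q)‖ ≤ (q : ℝ) / 2 * (1 / x + 1 / ((q - x : ℕ) : ℝ)) := by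
  have hq : (0 : ℝ) < q := by
    have : 0 < q := by omega
    exact_mod_cast this
  have h1 : ∀ n : ℕ, ex ((x : ℝ) * n / q) = ex ((x : ℝ) / q) ^ n := by
    intro n
    induction n with
    | zero => simp [ex_zero]
    | succ n ih =>
      rw [pow_succ, ← ih, ← ex_add]
      congr 1
      push_cast
      ring
  have h2 := norm_ex_sub_one q x hx hxq
  have hm : 0 < min x (q - x) := by omega
  have hm' : (0 : ℝ) < (min x (q - x) : ℕ) := by exact_mod_cast hm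
  have hpos : 0 < ‖ex ((x : ℝ) / q) - 1‖ := lt_of_lt_of_le (by positivity) h2
  have hne : ex ((x : ℝ) / q) ≠ 1 := by
    intro h
    rw [h, sub_self, norm_zero] at hpos
    exact lt_irrefl _ hpos
  have h3 : ∑ n ∈ Icc 1 N, ex ((x : ℝ) * n / q) =
      ex ((x : ℝ) / q) * ((ex ((x : ℝ) / q) ^ N - 1) / (ex ((x : ℝ) / q) - 1)) := by
    rw [← geom_sum_eq hne, Finset.mul_sum]
    rw [Finset.sum_congr rfl (fun n _ => h1 n)]
    rw [Finset.range_eq_Ico, Finset.sum_Ico_eq_sum_range]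
    have : Icc 1 N = Ico 1 (N + 1) := by
      ext n; simp only [Finset.mem_Icc, Finset.mem_Ico]; omega
    rw [this, Finset.sum_Ico_eq_sum_range]
    refine Finset.sum_congr (by simp) (fun n _ => ?_)
    rw [pow_add, pow_one]
    simp
  rw [h3, norm_mul, norm_ex, one_mul, norm_div]
  have h4 : ‖ex ((x : ℝ) / q) ^ N - 1‖ ≤ 2 := by
    calc ‖ex ((x : ℝ) / q) ^ N - 1‖ ≤ ‖ex ((x : ℝ) / q) ^ N‖ + ‖(1 : ℂ)‖ := norm_sub_le _ _
      _ = 2 := by rw [norm_pow, norm_ex]; norm_num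
  have h5 : ‖ex ((x : ℝ) / q) ^ N - 1‖ / ‖ex ((x : ℝ) / q) - 1‖ ≤
      2 / (4 * (min x (q - x) : ℕ) / (q : ℝ)) := by
    gcongr
  refine le_trans h5 ?_
  have h6 : 2 / (4 * (min x (q - x) : ℕ) / (q : ℝ)) = (q : ℝ) / 2 * (1 / (min x (q - x) : ℕ)) := by
    field_simp
    ring
  rw [h6]
  gcongr
  have hqx : 0 < q - x := by omega
  have hqx' : (0 : ℝ) < ((q - x : ℕ) : ℝ) := by exact_mod_cast hqx
  have hx' : (0 : ℝ) < x := by exact_mod_cast hx
  rcases Nat.le_total x (q - x) with h | h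
  · rw [min_eq_left h]
    have : 0 ≤ 1 / ((q - x : ℕ) : ℝ) := by positivity
    linarith
  · rw [min_eq_right h]
    have : 0 ≤ 1 / (x : ℝ) := by positivity
    linarith

/-- The inequality of Polya and Vinogradov. -/
theorem polya_vinogradov (q : ℕ) (hq : 1 < q) (χ : DirichletCharacter ℂ q) (h : χ.IsPrimitive)
    (N : ℕ) : ‖∑ n ∈ Icc 1 N, χ (n : ZMod q)‖ ≤ Real.sqrt q * (1 + Real.log q) := by
  have : NeZero q := ⟨by omega⟩
  have hq' : (0 : ℝ) < q := by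
    have : 0 < q := by omega
    exact_mod_cast this
  have hi := inv_isPrimitive h
  have hnorm := norm_tau q (by omega) χ⁻¹ hi
  have h1 : ∀ n : ℕ, tau q χ⁻¹ * χ (n : ZMod q) =
      ∑ x ∈ Ico 1 q, χ⁻¹ (x : ZMod q) * ex ((x : ℝ) * n / q) := by
    intro n
    have h2 := gaussSum_mulShift_of_isPrimitive stdAddChar hi (n : ZMod q)
    rw [inv_inv, gaussSum_eq_tau] at h2
    rw [mul_comm, ← h2]
    unfold gaussSum
    rw [sum_zmod_range, Finset.range_eq_Ico, Finset.sum_eq_sum_Ico_succ_bot (by omega)]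
    have h3 : χ⁻¹ ((0 : ℕ) : ZMod q) = 0 := by
      rw [Nat.cast_zero]
      exact map_zero' χ⁻¹ (by omega)
    rw [h3, zero_mul, zero_add]
    refine Finset.sum_congr rfl (fun x _ => ?_)
    congr 1
    rw [AddChar.mulShift_apply]
    have h4 : (n : ZMod q) * (x : ZMod q) = ((x * n : ℕ) : ZMod q) := by push_cast; ring
    rw [h4, std_nat]
    push_cast
    rfl
  have h2 : tau q χ⁻¹ * ∑ n ∈ Icc 1 N, χ (n : ZMod q) =
      ∑ x ∈ Ico 1 q, χ⁻¹ (x : ZMod q) * ∑ n ∈ Icc 1 N, ex ((x : ℝ) * n / q) := by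
    rw [Finset.mul_sum]
    simp_rw [h1, Finset.mul_sum]
    rw [Finset.sum_comm]
  have h3 : Real.sqrt q * ‖∑ n ∈ Icc 1 N, χ (n : ZMod q)‖ ≤
      ∑ x ∈ Ico 1 q, (q : ℝ) / 2 * (1 / x + 1 / ((q - x : ℕ) : ℝ)) := by
    rw [← hnorm, ← norm_mul, h2]
    refine le_trans (norm_sum_le _ _) (Finset.sum_le_sum (fun x hx => ?_))
    rw [Finset.mem_Ico] at hx
    rw [norm_mul]
    have h4 : ‖χ⁻¹ (x : ZMod q)‖ ≤ 1 := DirichletCharacter.norm_le_one _ _
    have h5 := norm_geom q x N (by omega) hx.2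
    calc ‖χ⁻¹ (x : ZMod q)‖ * ‖∑ n ∈ Icc 1 N, ex ((x : ℝ) * n / q)‖ ≤
        1 * ‖∑ n ∈ Icc 1 N, ex ((x : ℝ) * n / q)‖ := by gcongr
      _ ≤ _ := by rw [one_mul]; exact h5
  have h4 : ∑ x ∈ Ico 1 q, (1 / ((q - x : ℕ) : ℝ)) = ∑ x ∈ Ico 1 q, (1 / (x : ℝ)) := by
    refine Finset.sum_bij' (fun x _ => q - x) (fun x _ => q - x) ?_ ?_ ?_ ?_ ?_
    · intro x hx; rw [Finset.mem_Ico] at hx ⊢; omega
    · intro x hx; rw [Finset.mem_Ico] at hx ⊢; omega
    · intro x hx; rw [Finset.mem_Ico] at hx; omega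
    · intro x hx; rw [Finset.mem_Ico] at hx; omega
    · intro x _; rfl
  have h5 : ∑ x ∈ Ico 1 q, (1 / (x : ℝ)) ≤ 1 + Real.log q := by
    have h6 := harmonic_le_one_add_log q
    have h7 : ∑ x ∈ Ico 1 q, (1 / (x : ℝ)) ≤ ((harmonic q : ℚ) : ℝ) := by
      rw [harmonic_eq_sum_Icc]
      push_cast
      have : ∀ x ∈ Ico 1 q, (1 / (x : ℝ)) = (x : ℝ)⁻¹ := fun x _ => one_div _
      rw [Finset.sum_congr rfl this]
      apply Finset.sum_le_sum_of_subset_of_nonneg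
      · intro x hx; rw [Finset.mem_Ico] at hx; rw [Finset.mem_Icc]; omega
      · intro x _ _; positivity
    linarith
  have h6 : ∑ x ∈ Ico 1 q, (q : ℝ) / 2 * (1 / x + 1 / ((q - x : ℕ) : ℝ)) ≤ q * (1 + Real.log q) := by
    rw [← Finset.mul_sum, Finset.sum_add_distrib, h4]
    calc (q : ℝ) / 2 * (∑ x ∈ Ico 1 q, (1 / (x : ℝ)) + ∑ x ∈ Ico 1 q, (1 / (x : ℝ))) =
        q * ∑ x ∈ Ico 1 q, (1 / (x : ℝ)) := by ring
      _ ≤ _ := by gcongr
  have hs : 0 < Real.sqrt q := Real.sqrt_pos.2 hq'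
  have h7 : Real.sqrt q * ‖∑ n ∈ Icc 1 N, χ (n : ZMod q)‖ ≤
      Real.sqrt q * (Real.sqrt q * (1 + Real.log q)) := by
    calc Real.sqrt q * ‖∑ n ∈ Icc 1 N, χ (n : ZMod q)‖ ≤ q * (1 + Real.log q) := le_trans h3 h6
      _ = Real.sqrt q * (Real.sqrt q * (1 + Real.log q)) := by
        rw [← mul_assoc, Real.mul_self_sqrt hq'.le]
  exact le_of_mul_le_mul_left h7 hs

end Pool.Agent.Lib.MP_6bc78b_nt.LS
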