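import Mathlib
import Pool.Agent.Lib.MP_6bc78b_nt.LS.PV
import Pool.Agent.Lib.MP_6bc78b_nt.MS.Defs

/-! Part A of the project MS: final forms. -/

set_option autoImplicit false

open Finset MeasureTheory DirichletCharacter ZMod

namespace Pool.Agent.Lib.MP_6bc78b_nt.LS

lemma ee_eq_ex (x : ℝ) : MS.ee x = ex x := by
  unfold MS.ee ex
  congr 1
  ring

lemma sum_Icc_range (N : ℕ) (f : ℕ → ℂ) :
    ∑ n ∈ Icc 1 N, f n = ∑ n ∈ range (N + 1), (if n = 0 then 0 else f n) := by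
  rw [Finset.range_eq_Ico, Finset.sum_eq_sum_Ico_succ_bot (by omega)]
  simp only [if_true, zero_add]
  have h : Icc 1 N = Ico (0 + 1) (N + 1) := by
    ext n; simp only [Finset.mem_Icc, Finset.mem_Ico]; omega
  rw [h]
  refine Finset.sum_congr rfl (fun n hn => ?_)
  rw [if_neg]
  rw [Finset.mem_Ico] at hn; omega

lemma sum_Icc_range_real (N : ℕ) (f : ℕ → ℝ) :
    ∑ n ∈ Icc 1 N, f n = ∑ n ∈ range (N + 1), (if n = 0 then 0 else f n) := by
  rw [Finset.range_eq_Ico, Finset.sum_eq_sum_Ico_succ_bot (by omega)]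
  simp only [if_true, zero_add]
  have h : Icc 1 N = Ico (0 + 1) (N + 1) := by
    ext n; simp only [Finset.mem_Icc, Finset.mem_Ico]; omega
  rw [h]
  refine Finset.sum_congr rfl (fun n hn => ?_)
  rw [if_neg]
  rw [Finset.mem_Ico] at hn; omega

/-- (A1) with the weight q/phi(q). -/
theorem large_sieve_Icc (Q N : ℕ) (a : ℕ → ℂ) :
    ∑ q ∈ Icc 1 Q, (q : ℝ) / q.totient *
      primSum q (fun χ => ‖∑ n ∈ Icc 1 N, a n * χ (n : ZMod q)‖ ^ 2) ≤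
      26 * ((N : ℝ) + (Q : ℝ) ^ 2) * ∑ n ∈ Icc 1 N, ‖a n‖ ^ 2 := by
  rcases Nat.eq_zero_or_pos N with hN | hN
  · subst hN
    have h : ∀ q ∈ Icc 1 Q, (q : ℝ) / q.totient *
        primSum q (fun χ => ‖∑ n ∈ Icc 1 0, a n * χ (n : ZMod q)‖ ^ 2) = 0 := by
      intro q _
      unfold primSum
      simp
    rw [Finset.sum_congr rfl h]
    simp
  set b : ℕ → ℂ := fun n => if n = 0 then 0 else a n with hb
  have h1 := large_sieve_primSum Q (N + 1) b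
  have h2 : ∀ (q : ℕ) (χ : DirichletCharacter ℂ q), ∑ n ∈ Icc 1 N, a n * χ (n : ZMod q) =
      ∑ n ∈ range (N + 1), b n * χ (n : ZMod q) := by
    intro q χ
    rw [sum_Icc_range]
    refine Finset.sum_congr rfl (fun n _ => ?_)
    simp only [hb]
    split_ifs <;> simp
  have h3 : ∑ n ∈ Icc 1 N, ‖a n‖ ^ 2 = ∑ n ∈ range (N + 1), ‖b n‖ ^ 2 := by
    rw [sum_Icc_range_real]
    refine Finset.sum_congr rfl (fun n _ => ?_)
    simp only [hb]
    split_ifs <;> simp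
  simp_rw [h2]
  rw [h3]
  refine le_trans h1 ?_
  have hN1 : (1 : ℝ) ≤ N := by exact_mod_cast hN
  have h0 : 0 ≤ ∑ n ∈ range (N + 1), ‖b n‖ ^ 2 := Finset.sum_nonneg (fun _ _ => by positivity)
  refine mul_le_mul_of_nonneg_right ?_ h0
  push_cast
  have hpi := Real.pi_lt_d2
  have hpi0 := Real.pi_pos
  nlinarith [sq_nonneg (Q : ℝ), mul_nonneg (by linarith : (0:ℝ) ≤ 3.15 - Real.pi) (by linarith : (0:ℝ) ≤ (N:ℝ))]

/-- (A1) in the plain form. -/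
theorem large_sieve_plain (Q N : ℕ) (a : ℕ → ℂ) :
    ∑ q ∈ Icc 1 Q, primSum q (fun χ => ‖∑ n ∈ Icc 1 N, a n * χ (n : ZMod q)‖ ^ 2) ≤
      26 * ((N : ℝ) + (Q : ℝ) ^ 2) * ∑ n ∈ Icc 1 N, ‖a n‖ ^ 2 := by
  refine le_trans (Finset.sum_le_sum (fun q hq => ?_)) (large_sieve_Icc Q N a)
  have hq1 : 1 ≤ q := (Finset.mem_Icc.1 hq).1
  have hφ : (0 : ℝ) < q.totient := by exact_mod_cast Nat.totient_pos.2 hq1
  have h1 : (1 : ℝ) ≤ (q : ℝ) / q.totient := by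
    rw [le_div_iff₀ hφ, one_mul]
    exact_mod_cast Nat.totient_le q
  have h0 : 0 ≤ primSum q (fun χ => ‖∑ n ∈ Icc 1 N, a n * χ (n : ZMod q)‖ ^ 2) :=
    primSum_nonneg _ _ (fun _ => by positivity)
  nlinarith

/-- (A2) bilinear form of the large sieve, all moduli up to Q. -/
theorem bilinear_Icc (Q U V : ℕ) (a b : ℕ → ℂ) :
    ∑ q ∈ Icc 1 Q, primSum q (fun χ => ‖∑ u ∈ Icc 1 U, a u * χ (u : ZMod q)‖ *
        ‖∑ v ∈ Icc 1 V, b v * χ (v : ZMod q)‖) ≤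
      26 * Real.sqrt (((U : ℝ) + (Q : ℝ) ^ 2) * ((V : ℝ) + (Q : ℝ) ^ 2)) *
        Real.sqrt ((∑ u ∈ Icc 1 U, ‖a u‖ ^ 2) * ∑ v ∈ Icc 1 V, ‖b v‖ ^ 2) := by
  classical
  set F : ∀ q : ℕ, DirichletCharacter ℂ q → ℝ := fun q χ => ‖∑ u ∈ Icc 1 U, a u * χ (u : ZMod q)‖ with hF
  set G : ∀ q : ℕ, DirichletCharacter ℂ q → ℝ := fun q χ => ‖∑ v ∈ Icc 1 V, b v * χ (v : ZMod q)‖ with hG
  set X : ℕ → ℝ := fun q => Real.sqrt (primSum q (fun χ => F q χ ^ 2)) with hX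
  set Y : ℕ → ℝ := fun q => Real.sqrt (primSum q (fun χ => G q χ ^ 2)) with hY
  have hterm : ∀ q ∈ Icc 1 Q, primSum q (fun χ => F q χ * G q χ) ≤ X q * Y q := by
    intro q _
    have hA : 0 ≤ primSum q (fun χ => F q χ ^ 2) := primSum_nonneg _ _ (fun _ => by positivity)
    simp only [hX, hY]
    rw [← Real.sqrt_mul hA]
    exact Real.le_sqrt_of_sq_le (primSum_cauchy q (F q) (G q))
  refine le_trans (Finset.sum_le_sum hterm) ?_
  have hcs := Finset.sum_mul_sq_le_sq_mul_sq (Icc 1 Q) X Y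
  have hXs : ∑ q ∈ Icc 1 Q, X q ^ 2 ≤ 26 * ((U : ℝ) + (Q : ℝ) ^ 2) * ∑ u ∈ Icc 1 U, ‖a u‖ ^ 2 := by
    refine le_trans (le_of_eq ?_) (large_sieve_plain Q U a)
    refine Finset.sum_congr rfl (fun q _ => ?_)
    simp only [hX]
    rw [Real.sq_sqrt (primSum_nonneg _ _ (fun _ => by positivity))]
  have hYs : ∑ q ∈ Icc 1 Q, Y q ^ 2 ≤ 26 * ((V : ℝ) + (Q : ℝ) ^ 2) * ∑ v ∈ Icc 1 V, ‖b v‖ ^ 2 := by
    refine le_trans (le_of_eq ?_) (large_sieve_plain Q V b)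
    refine Finset.sum_congr rfl (fun q _ => ?_)
    simp only [hY]
    rw [Real.sq_sqrt (primSum_nonneg _ _ (fun _ => by positivity))]
  rw [mul_assoc, ← Real.sqrt_mul (by positivity)]
  have h26 : (26 : ℝ) = Real.sqrt (26 * 26) := by rw [Real.sqrt_mul_self (by norm_num)]
  rw [h26, ← Real.sqrt_mul (by norm_num)]
  apply Real.le_sqrt_of_sq_le
  refine le_trans hcs ?_
  have hX0 : 0 ≤ ∑ q ∈ Icc 1 Q, X q ^ 2 := Finset.sum_nonneg (fun _ _ => by positivity)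
  have hY0 : 0 ≤ ∑ q ∈ Icc 1 Q, Y q ^ 2 := Finset.sum_nonneg (fun _ _ => by positivity)
  calc (∑ q ∈ Icc 1 Q, X q ^ 2) * (∑ q ∈ Icc 1 Q, Y q ^ 2) ≤
      (26 * ((U : ℝ) + (Q : ℝ) ^ 2) * ∑ u ∈ Icc 1 U, ‖a u‖ ^ 2) *
      (26 * ((V : ℝ) + (Q : ℝ) ^ 2) * ∑ v ∈ Icc 1 V, ‖b v‖ ^ 2) := by gcongr
    _ = _ := by ring

lemma divisors_filter (m n : ℕ) (hm : 0 < m) :
    (m.divisors.filter (fun d => d ∣ n)) = (Nat.gcd m n).divisors := by
  ext d
  have hg : Nat.gcd m n ≠ 0 := Nat.gcd_ne_zero_left hm.ne'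
  rw [Finset.mem_filter, Nat.mem_divisors, Nat.mem_divisors, Nat.dvd_gcd_iff]
  constructor
  · rintro ⟨⟨h1, _⟩, h3⟩; exact ⟨⟨h1, h3⟩, hg⟩
  · rintro ⟨⟨h1, h2⟩, _⟩; exact ⟨⟨h1, hm.ne'⟩, h2⟩

/-- The Ramanujan sum of the project, for squarefree m. -/
lemma ram_eq_ramC (m n : ℕ) (hm : Squarefree m) :
    ram m n = ((MS.ramC m n : ℝ) : ℂ) / (m.totient : ℂ) := by
  have hm0 : 0 < m := Nat.pos_of_ne_zero hm.ne_zero
  rw [ram_eq m n hm, ← Finset.sum_filter, divisors_filter m n hm0]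
  unfold MS.ramC
  push_cast
  ring

/-- (A4) exact form. -/
theorem ee_sub_ramC (m : ℕ) (hm : Squarefree m) (n : ℕ) :
    MS.ee (-((n : ℝ) / m)) - ((MS.ramC m n : ℝ) : ℂ) / (m.totient : ℂ) =
      ∑ q ∈ m.divisors.erase 1, ((MS.ramC (m / q) n : ℝ) : ℂ) / ((q.totient : ℂ) * ((m / q).totient : ℂ)) *
      primSumC q (fun ψ => (starRingEnd ℂ) (tau q ψ) * ψ⁻¹ ((m / q : ℕ) : ZMod q) * ψ (n : ZMod q)) := by
  rw [ee_eq_ex, ← ram_eq_ramC m n hm, ex_neg_sub_ram m hm n]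
  refine Finset.sum_congr rfl (fun q hq => ?_)
  have hq' := Nat.mem_divisors.1 (Finset.mem_of_mem_erase hq)
  have hsq : Squarefree (m / q) := hm.squarefree_of_dvd (Nat.div_dvd_of_dvd hq'.1)
  rw [ram_eq_ramC _ n hsq]
  congr 1
  rw [div_div, mul_comm (((m / q).totient : ℕ) : ℂ)]

lemma abs_ramC_le (m n : ℕ) : |MS.ramC m n| ≤ ∑ d ∈ (Nat.gcd m n).divisors, (d : ℝ) := by
  unfold MS.ramC
  refine le_trans (Finset.abs_sum_le_sum_abs _ _) (Finset.sum_le_sum (fun d _ => ?_))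
  rw [abs_mul, abs_of_nonneg (by positivity : (0:ℝ) ≤ (d:ℝ))]
  have h : |((ArithmeticFunction.moebius (m / d) : ℤ) : ℝ)| ≤ 1 := by
    exact_mod_cast ArithmeticFunction.abs_moebius_le_one
  calc (d : ℝ) * |((ArithmeticFunction.moebius (m / d) : ℤ) : ℝ)| ≤ d * 1 := by gcongr
    _ = d := mul_one _

lemma abs_ramC_le' (m n : ℕ) (hm : 0 < m) : |MS.ramC m n| ≤ ∑ d ∈ m.divisors, (d : ℝ) := by
  refine le_trans (abs_ramC_le m n) ?_
  apply Finset.sum_le_sum_of_subset_of_nonneg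
  · exact Nat.divisors_subset_of_dvd hm.ne' (Nat.gcd_dvd_left m n)
  · intro d _ _; positivity

/-- (A4) the non-principal part of an infinite sum. -/
theorem nonprincipal_le (m : ℕ) (hm : Squarefree m) (w : ℕ → ℂ) (hw : Summable (fun n => ‖w n‖)) :
    ‖∑' n : ℕ, w n * (MS.ee (-((n : ℝ) / m)) - ((MS.ramC m n : ℝ) : ℂ) / (m.totient : ℂ))‖ ≤
      ∑ q ∈ m.divisors.erase 1, Real.sqrt q / ((q.totient : ℝ) * ((m / q).totient : ℝ)) *
        primSum q (fun ψ => ‖∑' n : ℕ, w n * ((MS.ramC (m / q) n : ℝ) : ℂ) * ψ (n : ZMod q)‖) := by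
  classical
  have hm0 : 0 < m := Nat.pos_of_ne_zero hm.ne_zero
  have hs : ∀ q ∈ m.divisors.erase 1, ∀ ψ : DirichletCharacter ℂ q,
      Summable (fun n : ℕ => w n * ((MS.ramC (m / q) n : ℝ) : ℂ) * ψ (n : ZMod q)) := by
    intro q hq ψ
    have hq' := Nat.mem_divisors.1 (Finset.mem_of_mem_erase hq)
    have hmq : 0 < m / q := Nat.div_pos (Nat.le_of_dvd hm0 hq'.1) (Nat.pos_of_dvd_of_pos hq'.1 hm0)
    apply Summable.of_norm
    refine Summable.of_nonneg_of_le (fun n => norm_nonneg _) (fun n => ?_)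
      (hw.mul_right (∑ d ∈ (m / q).divisors, (d : ℝ)))
    rw [norm_mul, norm_mul, Complex.norm_real, Real.norm_eq_abs]
    have h1 := abs_ramC_le' (m / q) n hmq
    have h2 : ‖ψ (n : ZMod q)‖ ≤ 1 := DirichletCharacter.norm_le_one _ _
    calc ‖w n‖ * |MS.ramC (m / q) n| * ‖ψ (n : ZMod q)‖ ≤
        ‖w n‖ * (∑ d ∈ (m / q).divisors, (d : ℝ)) * 1 := by gcongr
      _ = _ := mul_one _
  have h1 : ∑' n : ℕ, w n * (MS.ee (-((n : ℝ) / m)) - ((MS.ramC m n : ℝ) : ℂ) / (m.totient : ℂ)) =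
      ∑ q ∈ m.divisors.erase 1, (1 / ((q.totient : ℂ) * ((m / q).totient : ℂ))) *
      primSumC q (fun ψ => (starRingEnd ℂ) (tau q ψ) * ψ⁻¹ ((m / q : ℕ) : ZMod q) *
        ∑' n : ℕ, w n * ((MS.ramC (m / q) n : ℝ) : ℂ) * ψ (n : ZMod q)) := by
    have h2 : ∀ n : ℕ, w n * (MS.ee (-((n : ℝ) / m)) - ((MS.ramC m n : ℝ) : ℂ) / (m.totient : ℂ)) =
        ∑ q ∈ m.divisors.erase 1, (1 / ((q.totient : ℂ) * ((m / q).totient : ℂ))) *
        ∑ ψ : DirichletCharacter ℂ q, (if ψ.IsPrimitive then (starRingEnd ℂ) (tau q ψ) *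
          ψ⁻¹ ((m / q : ℕ) : ZMod q) * (w n * ((MS.ramC (m / q) n : ℝ) : ℂ) * ψ (n : ZMod q)) else 0) := by
      intro n
      rw [ee_sub_ramC m hm n, Finset.mul_sum]
      refine Finset.sum_congr rfl (fun q _ => ?_)
      unfold primSumC
      rw [Finset.mul_sum, Finset.mul_sum, Finset.mul_sum]
      refine Finset.sum_congr rfl (fun ψ _ => ?_)
      split_ifs
      · ring
      · simp
    simp_rw [h2]
    have hsq : ∀ q ∈ m.divisors.erase 1, ∀ ψ : DirichletCharacter ℂ q, Summable (fun n : ℕ =>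
        (if ψ.IsPrimitive then (starRingEnd ℂ) (tau q ψ) *
          ψ⁻¹ ((m / q : ℕ) : ZMod q) * (w n * ((MS.ramC (m / q) n : ℝ) : ℂ) * ψ (n : ZMod q)) else 0)) := by
      intro q hq ψ
      split_ifs
      · exact (hs q hq ψ).mul_left _
      · exact summable_zero
    rw [Summable.tsum_finsetSum]
    · refine Finset.sum_congr rfl (fun q hq => ?_)
      rw [tsum_mul_left]
      congr 1
      rw [Summable.tsum_finsetSum (fun ψ _ => hsq q hq ψ)]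
      unfold primSumC
      refine Finset.sum_congr rfl (fun ψ _ => ?_)
      by_cases hψ : ψ.IsPrimitive
      · simp only [if_pos hψ]
        rw [tsum_mul_left]
      · simp only [if_neg hψ]
        exact tsum_zero
    · intro q hq
      exact (summable_sum (fun ψ _ => hsq q hq ψ)).mul_left _
  rw [h1]
  refine le_trans (norm_sum_le _ _) (Finset.sum_le_sum (fun q hq => ?_))
  have hq' := Nat.mem_divisors.1 (Finset.mem_of_mem_erase hq)
  have hq0 : 0 < q := Nat.pos_of_dvd_of_pos hq'.1 hm0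
  have hφ : (0 : ℝ) < (q.totient : ℝ) * ((m / q).totient : ℝ) := by
    have hmq : 0 < m / q := Nat.div_pos (Nat.le_of_dvd hm0 hq'.1) hq0
    have h3 := Nat.totient_pos.2 hq0
    have h4 := Nat.totient_pos.2 hmq
    have h3' : (0 : ℝ) < q.totient := by exact_mod_cast h3
    have h4' : (0 : ℝ) < (m / q).totient := by exact_mod_cast h4
    positivity
  rw [norm_mul]
  have h3 : ‖(1 / ((q.totient : ℂ) * ((m / q).totient : ℂ)) : ℂ)‖ =
      1 / ((q.totient : ℝ) * ((m / q).totient : ℝ)) := by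
    rw [norm_div, norm_mul, Complex.norm_natCast, Complex.norm_natCast, norm_one]
  rw [h3]
  have h4 : ‖primSumC q (fun ψ => (starRingEnd ℂ) (tau q ψ) * ψ⁻¹ ((m / q : ℕ) : ZMod q) *
      ∑' n : ℕ, w n * ((MS.ramC (m / q) n : ℝ) : ℂ) * ψ (n : ZMod q))‖ ≤
      Real.sqrt q * primSum q (fun ψ => ‖∑' n : ℕ, w n * ((MS.ramC (m / q) n : ℝ) : ℂ) * ψ (n : ZMod q)‖) := by
    refine le_trans (norm_primSumC_le _ _) ?_
    rw [← primSum_const_mul]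
    apply primSum_mono
    intro ψ hψ
    rw [norm_mul, norm_mul, RCLike.norm_conj, norm_tau q hq0 ψ hψ]
    have h5 : ‖ψ⁻¹ ((m / q : ℕ) : ZMod q)‖ ≤ 1 := DirichletCharacter.norm_le_one _ _
    calc Real.sqrt q * ‖ψ⁻¹ ((m / q : ℕ) : ZMod q)‖ *
        ‖∑' n : ℕ, w n * ((MS.ramC (m / q) n : ℝ) : ℂ) * ψ (n : ZMod q)‖ ≤ Real.sqrt q * 1 *
        ‖∑' n : ℕ, w n * ((MS.ramC (m / q) n : ℝ) : ℂ) * ψ (n : ZMod q)‖ := by gcongr
      _ = _ := by rw [mul_one]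
  calc 1 / ((q.totient : ℝ) * ((m / q).totient : ℝ)) *
      ‖primSumC q (fun ψ => (starRingEnd ℂ) (tau q ψ) * ψ⁻¹ ((m / q : ℕ) : ZMod q) *
      ∑' n : ℕ, w n * ((MS.ramC (m / q) n : ℝ) : ℂ) * ψ (n : ZMod q))‖ ≤
      1 / ((q.totient : ℝ) * ((m / q).totient : ℝ)) * (Real.sqrt q *
        primSum q (fun ψ => ‖∑' n : ℕ, w n * ((MS.ramC (m / q) n : ℝ) : ℂ) * ψ (n : ZMod q)‖)) := by
        gcongr
    _ = _ := by ring

end Pool.Agent.Lib.MP_6bc78b_nt.LS
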